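import Pool.Agent.Y148.ZC.AlgDefs

/-!
# Self-dual Chow-Kunneth decompositions: definition
-/

open CategoryTheory AlgebraicGeometry

universe u v w

namespace Pool.Agent.Y148.ZC

open Pool.Agent.H914 Pool.Agent.H914.VarClass Pool.Agent.H914.VarClass.Obj Pool.Agent.W492.BB
  Pool.Agent.W550.Corr Pool.Agent.TH133

/-- All varieties have self-dual Chow-Kunneth decompositions. -/
def AllSelfDual {k : Type u} [Field k] {𝒱 : VarClass k} {C : TheoryData.{u, v, 0} 𝒱 ℚ}
    {K : Type w} [Field K] (H : WeilTheoryData.{u, v, w} C K) : Prop :=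
  ∀ X : 𝒱.Obj, ∃ π, IsCK H X π ∧ IsSelfDual C π

end Pool.Agent.Y148.ZC
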