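import Pool.Agent.Y148.ZC.Defs

/-!
# Algebraic correspondences and zero-cycles: definitions
-/

open CategoryTheory AlgebraicGeometry

universe u v w

namespace Pool.Agent.Y148.ZC

open Pool.Agent.H914 Pool.Agent.H914.VarClass Pool.Agent.H914.VarClass.Obj Pool.Agent.W492.BB
  Pool.Agent.W550.Corr Pool.Agent.TH133

variable {k : Type u} [Field k] {𝒱 : VarClass k} {C : TheoryData.{u, v, 0} 𝒱 ℚ}
  {K : Type w} [Field K]

/-- All varieties have Chow-Kunneth decompositions. -/
def AllChowKunneth (H : WeilTheoryData.{u, v, w} C K) : Prop := ∀ X : 𝒱.Obj, ∃ π, IsCK H X π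

/-- Homologically trivial self-correspondences `G ∈ CH^(dim X)(X × X)` are algebraic over `ℚ`:
there is a polynomial `f ≠ 0` with rational coefficients such that `f(G) = ∑ c_n G^n = 0`. -/
def HomTrivialAlgebraic (H : WeilTheoryData.{u, v, w} C K) : Prop :=
  ∀ (X : 𝒱.Obj) (G : C.A (X.prod X)), C.Deg X.dim G → H.cl G = 0 →
    ∃ f : Polynomial ℚ, f ≠ 0 ∧ f.sum (fun n c => c • (fun Γ => C.comp Γ G)^[n] (dg C X)) = 0

/-- Homologically trivial self-correspondences `G ∈ CH^(dim X)(X × X)` act locally algebraically on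
zero-cycles: for each zero-cycle `x` there is a polynomial `f ≠ 0` with rational coefficients such
that `f(G_*) x = ∑ c_n (G_*)^n x = 0`. -/
def AlgebraicOnZeroCycles (H : WeilTheoryData.{u, v, w} C K) : Prop :=
  ∀ (X : 𝒱.Obj) (G : C.A (X.prod X)), C.Deg X.dim G → H.cl G = 0 →
    ∀ x : C.A X, C.Deg X.dim x →
      ∃ f : Polynomial ℚ, f ≠ 0 ∧ f.sum (fun n c => c • (fun y => C.act G y)^[n] x) = 0

end Pool.Agent.Y148.ZC
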