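import Pool.Agent.Y148.ZC.Ind
import Pool.Agent.Y110.Kf

/-!
# Finite-dimensionality of motives and zero-cycles
-/

open CategoryTheory AlgebraicGeometry

universe u v w

namespace Pool.Agent.Y148.ZC

open Pool.Agent.H914 Pool.Agent.H914.VarClass Pool.Agent.H914.VarClass.Obj Pool.Agent.W492.BB
  Pool.Agent.W550.Corr Pool.Agent.TH133 Pool.Agent.TH829.Prime Pool.Agent.TH829.Kim
  Pool.Agent.Y110

set_option linter.unusedSectionVars false
set_option linter.unusedVariables false

variable {k : Type u} [Field k] {𝒱 : VarClass k} {C : TheoryData.{u, v, 0} 𝒱 ℚ}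
  [hC : IsChowProj C] {K : Type w} [Field K]
  {H : WeilTheoryData.{u, v, w} C K} [hH : IsWeilProj H] {X Y Z W P : 𝒱.Obj}

include hC hH

lemma exists_power (X : 𝒱.Obj) (n : ℕ) :
    ∃ (P : 𝒱.Obj) (pr : Fin (n + 1) → (P ⟶ X)), IsPow pr ∧ P.dim = (n + 1) * X.dim ∧
      ∀ e : C.A (X.prod X), C.comp e e = e → C.comp (epow pr e) (epow pr e) = epow pr e := by
  induction n with
  | zero =>
    refine ⟨X, fun _ => 𝟙 X, isPow_one X, by ring, fun e he => ?_⟩
    have h1 : epow (fun _ : Fin (0 + 1) => 𝟙 X) e = e := by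
      unfold epow
      rw [Fin.prod_univ_succ, Fin.prod_univ_zero, mul_one, Category.comp_id, Category.comp_id,
        ev_univ]
    rw [h1, he]
  | succ n ih =>
    obtain ⟨P, pr, h, hd, hE⟩ := ih
    refine ⟨X.prod P, consPr pr, h.succ, ?_, fun e he => ?_⟩
    · rw [dim_prod, hd]; ring
    · have h1 : epow (consPr pr) e = tens C e (epow pr e) := by
        unfold epow
        rw [Fin.prod_univ_succ, tens, map_prod]
        congr 1
        apply Finset.prod_congr rfl
        intro i _
        rw [pull_ev, prodMap_fst_assoc, prodMap_snd_assoc, consPr_succ]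
      rw [h1, tens_comp', he, hE e he]

omit hC hH in
/-- The projector onto the even (odd) part. -/
noncomputable def sgn (s : Bool) (e : C.A (X.prod X)) : C.A (X.prod X) :=
  if s then e else dg C X - e

lemma sgn_mem {e : C.A (X.prod X)} (he : e ∈ C.gr (X.prod X) X.dim) (s : Bool) :
    sgn s e ∈ C.gr (X.prod X) X.dim := by
  unfold sgn
  split_ifs
  · exact he
  · exact Submodule.sub_mem _ (dg_mem C X) he

lemma sgn_idem {e : C.A (X.prod X)} (he : C.comp e e = e) (s : Bool) :
    C.comp (sgn s e) (sgn s e) = sgn s e := by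
  unfold sgn
  split_ifs
  · exact he
  · rw [comp_sub, comp_dg, sub_comp, dg_comp, he, sub_self, sub_zero]

open Classical in
lemma act_sgn {e : C.A (X.prod X)} (he : IsEvenProjector H e) (s : Bool) {q : ℤ} {a : H.A X}
    (ha : a ∈ H.gr X q) : H.act (H.cl (sgn s e)) a = if Par s q then a else 0 := by
  unfold sgn Par
  cases s
  · simp only [Bool.false_eq_true, if_false]
    rw [map_sub, cl_dg, H.act_sub, act_dg]
    rcases Int.even_or_odd q with hq | hq
    · rw [(he q a ha).1 hq, sub_self, if_neg (Int.not_odd_iff_even.2 hq)]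
    · rw [(he q a ha).2 hq, sub_zero, if_pos hq]
  · simp only [if_true]
    rcases Int.even_or_odd q with hq | hq
    · rw [(he q a ha).1 hq, if_pos hq]
    · rw [(he q a ha).2 hq, if_neg (Int.not_even_iff_odd.2 hq)]

/-- The Kunneth decomposition of the classes of the even and the odd parts. -/
lemma cl_sgn {e : C.A (X.prod X)} (he : IsEvenProjector H e) :
    ∃ m : ℕ, ∀ s : Bool, ∃ (p q : Fin m → ℤ) (u v : Fin m → H.A X),
      (∀ i, u i ∈ H.gr X (p i)) ∧ (∀ i, v i ∈ H.gr X (q i)) ∧ (∀ i, Par s (p i)) ∧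
      (∀ i, Par s (q i)) ∧ H.cl (sgn s e) = ∑ i, H.ext (u i) (v i) := by
  classical
  obtain ⟨m, p, u, v, hu, hv, huv⟩ := exists_kunneth H X
  refine ⟨m, fun s => ?_⟩
  have hpar : ∀ i, Par s (2 * X.dim - p i) ↔ Par s (p i) := by
    intro i
    unfold Par
    cases s
    · simp only [Bool.false_eq_true, if_false]
      rw [Int.odd_sub, Int.odd_mul]
      have : ¬ Odd (2 : ℤ) := by decide
      simp only [this, false_and, false_iff, Int.not_even_iff_odd]
    · simp only [if_true]
      rw [Int.even_sub]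
      simp
  let c : ℤ := if s then 0 else 1
  have hc : Par s c := by
    unfold Par c
    cases s
    · simp
    · simp
  refine ⟨fun i => if Par s (p i) then p i else c,
    fun i => if Par s (p i) then 2 * X.dim - p i else c,
    fun i => if Par s (p i) then u i else 0, fun i => if Par s (p i) then v i else 0,
    fun i => ?_, fun i => ?_, fun i => ?_, fun i => ?_, ?_⟩
  · dsimp only
    split_ifs
    · exact hu i
    · exact Submodule.zero_mem _
  · dsimp only
    split_ifs
    · exact hv i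
    · exact Submodule.zero_mem _
  · dsimp only
    split_ifs with h
    · exact h
    · exact hc
  · dsimp only
    split_ifs with h
    · exact (hpar i).2 h
    · exact hc
  · have h1 : H.cl (sgn s e) = H.comp (H.cl (dg C X)) (H.cl (sgn s e)) := by
      rw [cl_dg, dg_comp]
    rw [h1, huv, sum_comp]
    apply Finset.sum_congr rfl
    intro i _
    rw [comp_ext_act, act_sgn he s (hv i)]
    by_cases h : Par s (p i)
    · rw [if_pos ((hpar i).2 h)]
      simp only [if_pos h]
    · rw [if_neg (fun h' => h ((hpar i).1 h'))]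
      simp only [if_neg h]
      rw [TheoryData.ext_zero_right, TheoryData.ext_zero_right]

/-- If the even projector is the class of an idempotent and there are no phantoms, then the motive
of `X` is finite-dimensional. -/
theorem kimura_of_sign (hg : GradedCommutative H) {e : C.A (X.prod X)}
    (hem : e ∈ C.gr (X.prod X) X.dim) (hee : C.comp e e = e) (hev : IsEvenProjector H e)
    (h : ∀ (Y : 𝒱.Obj) (p : C.A (Y.prod Y)), C.Deg Y.dim p → C.comp p p = p → H.cl p = 0 →
      p = 0) : IsKimuraFinite C (ratFam C) X := by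
  obtain ⟨m, hm⟩ := cl_sgn hev
  have hdies : ∀ s : Bool, Dies (ratFam C) s (ofA (sgn s e) (sgn_mem (H := H) hem s)) (m + 1) := by
    intro s
    obtain ⟨p, q, u, v, hu, hv, hp, hq, huv⟩ := hm s
    obtain ⟨P, pr, hP, hdim, hE⟩ := exists_power (C := C) (H := H) X m
    set f := sgn s e with hf
    have hfm : f ∈ C.gr (X.prod X) X.dim := sgn_mem (H := H) hem s
    have hff : C.comp f f = f := sgn_idem (H := H) hee s
    let x : Fin (m + 1) → (P.prod P ⟶ X) := fun i => fst P P ≫ pr i
    let y : Fin (m + 1) → (P.prod P ⟶ X) := fun i => snd P P ≫ pr i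
    let D0 : C.A (P.prod P) := gd s (fun _ _ => f) x y
    let D : Cor C P := D0
    have hDD := hP.gd_mul s (hE f hff) (D := D) rfl
    set N : ℕ := Fintype.card (Equiv.Perm (Fin (m + 1))) with hN
    have hN0 : (N : ℚ) ≠ 0 := by
      have : 0 < N := Fintype.card_pos
      positivity
    have hDD' : D * D = (N : ℚ) • D := by rw [hDD, Nat.cast_smul_eq_nsmul]
    let p' : Cor C P := (N : ℚ)⁻¹ • D
    have hpp : p' * p' = p' := by
      simp only [p']
      rw [smul_mul_smul_comm, hDD', smul_smul, mul_assoc, inv_mul_cancel₀ hN0, mul_one]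
    have hDm : (D : C.A (P.prod P)) ∈ C.gr (P.prod P) P.dim := by
      have h1 := gd_mem s (ofA f hfm) x y
      have h2 : ((m + 1 : ℕ) : ℤ) * X.dim = P.dim := by rw [hdim]; push_cast; ring
      rw [h2] at h1
      exact h1
    have hcl : H.cl D0 = 0 :=
      cl_gd_eq_zero hg s hu hv hp hq huv (Nat.lt_succ_self m) x y
    have hp0 : (p' : C.A (P.prod P)) = 0 := by
      apply h P (p' : C.A (P.prod P))
      · exact Submodule.smul_mem _ _ hDm
      · exact hpp
      · change H.cl ((N : ℚ)⁻¹ • D0) = 0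
        rw [← one_mul D0, ← smul_mul_assoc, map_mul, hcl, mul_zero]
    have hD0 : D0 = 0 := by
      have h0 : (N : ℚ)⁻¹ • D0 = 0 := hp0
      rw [← one_smul ℚ D0, ← mul_inv_cancel₀ hN0, mul_smul, h0, smul_zero]
    intro W x' y'
    obtain ⟨g1, h1⟩ := hP.exists_lift W x'
    obtain ⟨g2, h2⟩ := hP.exists_lift W y'
    have h3 := pull_gd s (Obj.lift g1 g2) (fun _ _ => f) x y
    have h4 : gd s (fun _ _ => f) x y = 0 := hD0
    rw [h4, map_zero] at h3
    have h5 : (fun i => Obj.lift g1 g2 ≫ x i) = x' := by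
      funext i
      simp only [x]
      rw [lift_fst_assoc, h1]
    have h6 : (fun i => Obj.lift g1 g2 ≫ y i) = y' := by
      funext i
      simp only [y]
      rw [lift_snd_assoc, h2]
    rw [h5, h6] at h3
    change gd s (fun _ _ => f) x' y' ∈ (⊥ : Submodule ℚ (C.A W))
    rw [← h3]
    exact Submodule.zero_mem _
  rw [isKimuraFinite_iff]
  refine ⟨ofA e hem, ?_, ⟨m, hdies true⟩, ⟨m, ?_⟩⟩
  · have h1 : toA (ofA e hem * ofA e hem - ofA e hem) = (0 : C.A (X.prod X)) := by
      rw [map_sub, toA_mul, toA_ofA, hee, sub_self]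
    rw [h1]
    exact Submodule.zero_mem _
  · have h1 : 1 - ofA e hem = ofA (sgn false e) (sgn_mem (H := H) hem false) := by
      apply toA_inj
      rw [map_sub, toA_one, toA_ofA, toA_ofA]
      rfl
    rw [h1]
    exact hdies false

omit hH in
lemma toA_pow (x : R0 C X) (n : ℕ) : toA (x ^ n) = pw C (toA x) n := by
  induction n with
  | zero => rw [pow_zero, toA_one, pw_zero]
  | succ n ih => rw [pow_succ, toA_mul, ih, pw_succ]

omit hH in
lemma iter_pw (G : C.A (X.prod X)) (n : ℕ) : (fun Γ => C.comp Γ G)^[n] G = pw C G (n + 1) := by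
  induction n with
  | zero => rw [pw_succ, pw_zero, comp_dg]; rfl
  | succ n ih => rw [Function.iterate_succ_apply', ih, ← pw_succ']

lemma eq_zero_of_act_deg {Γ : C.A (X.prod X)}
    (h : ∀ i a, H.Deg i a → H.act (H.cl Γ) a = 0) : H.cl Γ = 0 := by
  apply hom_zero_of_act
  intro a
  have ha : a ∈ ⨆ i, H.gr X i := by
    rw [(H.isInternal X).submodule_iSup_eq_top]
    trivial
  induction ha using Submodule.iSup_induction' with
  | mem i a ha => exact h i a ha
  | zero => exact TheoryData.act_map_zero _ _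
  | add a b _ _ ha hb => rw [act_map_add, ha, hb, add_zero]

variable (H) in
lemma lift_of_nil (hN : Nilpotence H) (hs : SignConjecture H) : LiftedSign H := by
  intro X
  obtain ⟨e, he, hev⟩ := hs X
  let x : R0 C X := ofA e he
  have hx : toA x = e := rfl
  have hcl : H.cl (toA (x * x - x)) = 0 := by
    have h1 : ∀ i a, H.Deg i a → H.act (H.cl (toA (x * x - x))) a = 0 := by
      intro i a ha
      rw [map_sub, toA_mul, hx, map_sub, H.act_sub, cl_comp, TheoryData.act_comp]
      rcases Int.even_or_odd i with hi | hi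
      · rw [(hev i a ha).1 hi, (hev i a ha).1 hi, sub_self]
      · rw [(hev i a ha).2 hi, TheoryData.act_map_zero, sub_self]
    exact eq_zero_of_act_deg h1
  obtain ⟨n, hn⟩ := hN X (toA (x * x - x)) (toA_mem _) hcl
  rw [iter_pw, ← toA_pow] at hn
  have hnil : IsNilpotent (x * x - x) := ⟨n + 1, toA_inj (by rw [hn, map_zero])⟩
  obtain ⟨e', c, h1, h2⟩ := exists_lift hnil
  have h3 : H.cl (toA e') = H.cl e := by
    rw [← hx, ← sub_eq_zero, ← map_sub, ← map_sub, h2, toA_mul, cl_comp, hcl, comp_zero]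
  refine ⟨toA e', toA_mem _, ?_, ?_⟩
  · rw [← toA_mul, h1]
  · intro i a ha
    rw [h3]
    exact hev i a ha

lemma closed_hom : Closed H fun X G => G ∈ C.gr (X.prod X) X.dim ∧ H.cl G = 0 where
  mem h := h.1
  cl h := h.2
  pow h n := ⟨pw_mem h.1 _, by rw [pw_succ, cl_comp, h.2, zero_comp]⟩
  hull h _ h2 := ⟨h2, by rw [cl_comp, cl_comp, h.2, zero_comp, comp_zero]⟩

lemma pw_idem {G : C.A (X.prod X)} (h : C.comp G G = G) (n : ℕ) : pw C G (n + 1) = G := by
  induction n with
  | zero => rw [pw_succ, pw_zero, comp_dg]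
  | succ n ih => rw [pw_succ, ih, h]

lemma closed_idem : Closed H fun X G =>
    G ∈ C.gr (X.prod X) X.dim ∧ H.cl G = 0 ∧ C.comp G G = G where
  mem h := h.1
  cl h := h.2.1
  pow h n := by rwa [pw_idem (H := H) h.2.2]
  hull {P P' G A B} h h1 h2 := by
    refine ⟨h2, by rw [cl_comp, cl_comp, h.2.1, zero_comp, comp_zero], ?_⟩
    have h3 : C.comp (C.comp G A) B = G := by
      have h4 := h1
      rwa [h.2.2, h.2.2] at h4
    calc C.comp (C.comp B (C.comp G A)) (C.comp B (C.comp G A))
        = C.comp B (C.comp (C.comp (C.comp G A) B) (C.comp G A)) := by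
          simp only [comp_assoc C]
      _ = C.comp B (C.comp G A) := by rw [h3, ← comp_assoc C G G, h.2.2]

variable (H) in
/-- Local nilpotence on zero-cycles implies nilpotence. -/
theorem nilpotence_of_zeroCycles (hS : BlochSrinivas C) (h : NilpotentOnZeroCycles H) :
    Nilpotence H := by
  intro X G hG hcl
  obtain ⟨n, hn⟩ := exists_pw_eq_zero closed_hom hS (fun X G hG => h X G hG.1 hG.2) ⟨hG, hcl⟩
  refine ⟨n, ?_⟩
  rw [iter_pw, pw_succ, hn, comp_zero]

variable (H) in
/-- If phantoms kill zero-cycles, there are no phantoms. -/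
theorem noPhantoms_of_zeroCycles (hS : BlochSrinivas C) (h : PhantomsKillZeroCycles H)
    {p : C.A (X.prod X)} (hp : C.Deg X.dim p) (hpp : C.comp p p = p) (hcl : H.cl p = 0) :
    p = 0 := by
  obtain ⟨n, hn⟩ := exists_pw_eq_zero closed_idem hS
    (fun X G hG x hx => ⟨1, h X G hG.1 hG.2.2 hG.2.1 x hx⟩) ⟨hp, hcl, hpp⟩
  rw [← pw_idem (H := H) hpp n, pw_succ, hn, comp_zero]

/-- The theorem. -/
theorem main (hg : GradedCommutative H) (hS : BlochSrinivas C) : List.TFAE [
    (∀ X : 𝒱.Obj, IsKimuraFinite C (ratFam C) X) ∧ SignConjecture H,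
    Nilpotence H ∧ SignConjecture H,
    NilpotentOnZeroCycles H ∧ SignConjecture H,
    PhantomsKillZeroCycles H ∧ LiftedSign H] := by
  have hno : Nilpotence H → ∀ (Y : 𝒱.Obj) (p : C.A (Y.prod Y)), C.Deg Y.dim p →
      C.comp p p = p → H.cl p = 0 → p = 0 := by
    intro h Y p hp hpp hcl
    obtain ⟨n, hn⟩ := h Y p hp hcl
    rwa [iter_pw, pw_idem (H := H) hpp] at hn
  tfae_have 1 → 2 := by
    rintro ⟨h1, h2⟩
    refine ⟨fun X G hG hcl => ?_, h2⟩
    obtain ⟨n, hn⟩ := isNilpotent_of_kimura (H := H) (h1 X) (x := ofA G hG) hcl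
    refine ⟨n, ?_⟩
    have h3 : pw C G n = 0 := by
      have h4 := toA_pow (ofA G hG) n
      rw [hn, map_zero] at h4
      exact h4.symm
    rw [iter_pw, pw_succ, h3, comp_zero]
  tfae_have 2 → 3 := by
    rintro ⟨h1, h2⟩
    refine ⟨fun X G hG hcl x _ => ?_, h2⟩
    obtain ⟨n, hn⟩ := h1 X G hG hcl
    refine ⟨n + 1, ?_⟩
    rw [← act_pw, ← iter_pw, hn, TheoryData.act_zero]
  tfae_have 3 → 4 := by
    rintro ⟨h1, h2⟩
    have h3 := nilpotence_of_zeroCycles H hS h1
    refine ⟨fun X p hp hpp hcl x _ => ?_, lift_of_nil H h3 h2⟩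
    rw [hno h3 X p hp hpp hcl, TheoryData.act_zero]
  tfae_have 4 → 1 := by
    rintro ⟨h1, h2⟩
    refine ⟨fun X => ?_, fun X => ?_⟩
    · obtain ⟨e, he, hee, hev⟩ := h2 X
      exact kimura_of_sign hg he hee hev fun Y p hp hpp hcl =>
        noPhantoms_of_zeroCycles H hS h1 hp hpp hcl
    · obtain ⟨e, he, -, hev⟩ := h2 X
      exact ⟨e, he, hev⟩
  tfae_finish

end Pool.Agent.Y148.ZC
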