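import Pool.Agent.Y148.ZC.Sur
import Pool.Agent.Y148.ZC.Kim
import Pool.Agent.Y148.ZC.AlgDefs

/-!
# Correspondences which act locally algebraically on zero-cycles
-/

open CategoryTheory AlgebraicGeometry
open scoped Polynomial

universe u v w

namespace Pool.Agent.Y148.ZC

open Pool.Agent.H914 Pool.Agent.H914.VarClass Pool.Agent.H914.VarClass.Obj Pool.Agent.W492.BB
  Pool.Agent.W550.Corr Pool.Agent.TH133 Pool.Agent.Y148.BB Pool.Agent.TH829.Kim

set_option linter.unusedSectionVars false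
set_option linter.unusedVariables false

/-- A sequence of nonzero polynomials in which each polynomial divides the next ones and such that
each nonzero polynomial divides one of them. -/
lemma exists_universal : ∃ F : ℕ → ℚ[X], (∀ n, F n ≠ 0) ∧ (∀ m n, m ≤ n → F m ∣ F n) ∧
    ∀ f : ℚ[X], f ≠ 0 → ∃ n, f ∣ F n := by
  have hc : Countable ℚ[X] := by
    have h1 := Polynomial.cardinalMk_le_max (R := ℚ)
    rw [← Cardinal.mk_le_aleph0_iff]
    refine h1.trans ?_
    simp
  have hn : Nonempty {f : ℚ[X] // f ≠ 0} := ⟨⟨1, one_ne_zero⟩⟩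
  obtain ⟨φ, hφ⟩ := exists_surjective_nat {f : ℚ[X] // f ≠ 0}
  refine ⟨fun n => ∏ i ∈ Finset.range (n + 1), (φ i : ℚ[X]), fun n =>
    Finset.prod_ne_zero_iff.2 fun i _ => (φ i).2, fun m n hmn =>
    Finset.prod_dvd_prod_of_subset _ _ _ (Finset.range_mono (by omega)), fun f hf => ?_⟩
  obtain ⟨n, hn⟩ := hφ ⟨f, hf⟩
  refine ⟨n, ?_⟩
  have h1 : (φ n : ℚ[X]) ∣ ∏ i ∈ Finset.range (n + 1), (φ i : ℚ[X]) :=
    Finset.dvd_prod_of_mem _ (Finset.self_mem_range_succ n)
  rwa [hn] at h1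

variable {k : Type u} [Field k] {𝒱 : VarClass k} {C : TheoryData.{u, v, 0} 𝒱 ℚ}
  [hC : IsChowProj C] {K : Type w} [Field K]
  {H : WeilTheoryData.{u, v, w} C K} [hH : IsWeilProj H] {X Y Z W P P' : 𝒱.Obj}

include hC

lemma toA_aeval (x : R0 C X) (f : ℚ[X]) :
    toA (Polynomial.aeval x f) = f.sum fun n c => c • pw C (toA x) n := by
  rw [Polynomial.aeval_def, Polynomial.eval₂_eq_sum, Polynomial.sum_def, Polynomial.sum_def, map_sum]
  refine Finset.sum_congr rfl fun n _ => ?_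
  rw [← Algebra.smul_def, map_smul, toA_pow]

lemma act_aeval (x : R0 C X) (f : ℚ[X]) (z : C.A X) :
    C.act (toA (Polynomial.aeval x f)) z = f.sum fun n c => c • (fun y => C.act (toA x) y)^[n] z := by
  rw [toA_aeval, Polynomial.sum_def, Polynomial.sum_def, act_sum]
  refine Finset.sum_congr rfl fun n _ => ?_
  rw [← act_pw]
  simp only [← actB_apply, map_smul, LinearMap.smul_apply]

lemma toA_aeval_mul (x : R0 C X) (f g : ℚ[X]) :
    toA (Polynomial.aeval x (f * g)) = C.comp (toA (Polynomial.aeval x f)) (toA (Polynomial.aeval x g)) := by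
  rw [mul_comm, map_mul, toA_mul]

/-- Transfer of algebraicity. -/
lemma algebraic_transfer {x : R0 C P} {y : R0 C P'} {c : C.A (P.prod P')} {B : C.A (P'.prod P)}
    (hy : toA y = C.comp B c) (hkey : C.comp c B = C.comp (C.comp (toA x) (toA x)) (toA x))
    (h : IsAlgebraic ℚ y) : IsAlgebraic ℚ x := by
  obtain ⟨f, hf, hf0⟩ := h
  have h3 : toA (x ^ 3) = C.comp c B := by
    rw [hkey, toA_pow, pw_succ', pw_succ', pw_succ', pw_zero, dg_comp]
  have h4 : ∀ n : ℕ, C.comp (C.comp c (pw C (toA y) n)) B = pw C (toA (x ^ 3)) (n + 1) := by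
    intro n
    induction n with
    | zero => rw [pw_zero, comp_dg, pw_succ', pw_zero, dg_comp, h3]
    | succ n ih =>
      rw [pw_succ (toA (x ^ 3)), ← ih, h3, pw_succ, hy]
      simp only [comp_assoc C]
  have h5 : C.comp (C.comp c (toA (Polynomial.aeval y f))) B = toA (Polynomial.aeval (x ^ 3) (f * Polynomial.X)) := by
    rw [toA_aeval, map_mul, Polynomial.aeval_X, toA_mul, toA_aeval, Polynomial.sum_def, Polynomial.sum_def,
      comp_sum, sum_comp, comp_sum]
    refine Finset.sum_congr rfl fun n _ => ?_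
    rw [comp_smul_right, comp_smul_left, h4, comp_smul_right, pw_succ]
  have h6 : Polynomial.aeval (x ^ 3) (f * Polynomial.X) = 0 := by
    apply toA_inj
    rw [← h5, hf0, map_zero, comp_zero, zero_comp, map_zero]
  exact IsAlgebraic.of_pow (n := 3) (by norm_num) ⟨f * Polynomial.X, mul_ne_zero hf Polynomial.X_ne_zero, h6⟩

include hH

lemma alg_step (hS : BlochSrinivas C)
    (hz : ∀ (X : 𝒱.Obj) (x : R0 C X), H.cl (toA x) = 0 → ∀ z : C.A X, C.Deg X.dim z →
      ∃ f : ℚ[X], f ≠ 0 ∧ C.act (toA (Polynomial.aeval x f)) z = 0)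
    {d : ℕ} {x : R0 C P} (hxc : H.cl (toA x) = 0) (hT : Thr C (fun e => e = d) P (toA x)) :
    ∃ (P' : 𝒱.Obj) (y : R0 C P'), H.cl (toA y) = 0 ∧ Thr C (fun e => e + 1 = d) P' (toA y) ∧
      (IsAlgebraic ℚ y → IsAlgebraic ℚ x) := by
  obtain ⟨m, D, α, β, s, hD, hsum⟩ := hT
  obtain ⟨P', ι, π, hP⟩ := exists_hull C P m D
  obtain ⟨G, hG⟩ : ∃ G : C.A (P.prod P), G = toA x := ⟨_, rfl⟩
  rw [← hG] at hsum hxc
  have hGm : G ∈ C.gr (P.prod P) P.dim := hG ▸ toA_mem x
  obtain ⟨A, hA⟩ : ∃ A : C.A (P.prod P'), A = ∑ a, C.comp (α a) (ι a) := ⟨_, rfl⟩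
  obtain ⟨B, hB⟩ : ∃ B : C.A (P'.prod P), B = ∑ b, C.comp (π b) (β b) := ⟨_, rfl⟩
  have hBm : B ∈ C.gr (P'.prod P) (P.dim - s) := by
    rw [hB]
    exact Submodule.sum_mem _ fun b _ => gr_congr (by ring) (comp_gr (hP.π_mem b) (hD b).2.2)
  have hkey : C.comp (C.comp (C.comp G G) A) B = C.comp (C.comp G G) G := by
    rw [hA, hB]
    exact key_relation (H := H) (fun a => (hD a).2.1) (fun a => (hD a).2.2) hGm hxc hsum hP
  have hGG : C.comp G G ∈ C.gr (P.prod P) P.dim := comp_mem0 C hGm hGm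
  have hGGc : H.cl (C.comp G G) = 0 := by rw [cl_comp, hxc, comp_zero]
  obtain ⟨N, hN⟩ : ∃ N : ∀ b, C.A (P'.prod (D b)),
      N = fun b => C.comp B (C.comp (C.comp G G) (α b)) := ⟨_, rfl⟩
  have hNm : ∀ b, N b ∈ C.gr (P'.prod (D b)) (D b).dim := fun b => by
    rw [hN]
    exact gr_congr (by ring) (comp_gr hBm (comp_gr hGG (hD b).2.1))
  have hG'N : C.comp B (C.comp (C.comp G G) A) = ∑ b, C.comp (N b) (ι b) := by
    rw [hA, comp_sum, comp_sum, hN]
    refine Finset.sum_congr rfl fun b _ => ?_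
    rw [comp_assoc C B, comp_assoc C (C.comp G G)]
  have hG'm : C.comp B (C.comp (C.comp G G) A) ∈ C.gr (P'.prod P') P'.dim := by
    rw [hG'N]
    exact Submodule.sum_mem _ fun b _ => gr_congr (by ring) (comp_gr (hNm b) (hP.ι_mem b))
  obtain ⟨y, hy⟩ : ∃ y : R0 C P', toA y = C.comp B (C.comp (C.comp G G) A) := ⟨ofA _ hG'm, rfl⟩
  have hyc : H.cl (toA y) = 0 := by
    rw [hy, cl_comp, cl_comp, hGGc, zero_comp, comp_zero]
  obtain ⟨F, hF0, hFd, hFu⟩ := exists_universal
  have h1 : ∀ b, ∃ n, OverDivisors P'.dim (C.comp (ι b) (toA (Polynomial.aeval y (F n)))) := by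
    intro b
    refine hS (D b) P' P'.dim (fun n => C.comp (ι b) (toA (Polynomial.aeval y (F n)))) (fun n => ?_)
      fun z hz' => ?_
    · exact gr_congr (by ring) (comp_gr (hP.ι_mem b) (toA_mem _))
    · have h2 : C.act (ι b) z ∈ C.gr P' P'.dim :=
        gr_congr (by ring) (act_mem' C (e := P'.dim - (D b).dim)
          (gr_congr (by ring) (hP.ι_mem b)) hz')
      obtain ⟨f, hf, hf0⟩ := hz P' y hyc _ h2
      obtain ⟨n₀, hn₀⟩ := hFu f hf
      refine ⟨n₀, fun n hn => ?_⟩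
      obtain ⟨g, hg⟩ := hn₀.trans (hFd n₀ n hn)
      rw [C.act_comp, hg, toA_aeval_mul, C.act_comp, hf0, TheoryData.act_map_zero]
  choose n hn using h1
  obtain ⟨M, hM⟩ : ∃ M : ℕ, M = ∑ b, n b := ⟨_, rfl⟩
  have h2 : ∀ b, OverDivisors P'.dim (C.comp (ι b) (toA (Polynomial.aeval y (F M)))) := by
    intro b
    have h3 : n b ≤ M := by
      rw [hM]
      exact Finset.single_le_sum (fun _ _ => Nat.zero_le _) (Finset.mem_univ b)
    obtain ⟨g, hg⟩ := hFd _ _ h3
    rw [hg, toA_aeval_mul, ← comp_assoc C]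
    have h4 := (hn b).comp (toA_mem (Polynomial.aeval y g))
    rwa [add_sub_cancel_right] at h4
  choose mm E α' β' hE hE' using h2
  have hz' : Polynomial.aeval y (F M) * y = Polynomial.aeval y (F M * Polynomial.X) := by rw [map_mul, Polynomial.aeval_X]
  refine ⟨P', Polynomial.aeval y (F M) * y, ?_, ?_, ?_⟩
  · rw [toA_mul, cl_comp, hyc, zero_comp]
  · refine Thr.of_fintype (J := Σ b, Fin (mm b)) (fun c => E c.1 c.2)
      (fun c => C.comp (N c.1) (α' c.1 c.2)) (fun c => β' c.1 c.2) 1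
      (fun c => ⟨?_, ?_, ?_⟩) ?_
    · change (E c.1 c.2).dim + 1 = d
      rw [(hE c.1 c.2).1, (hD c.1).1]
    · have h3 := comp_gr (hNm c.1) (hE c.1 c.2).2.1
      have h4 := (hE c.1 c.2).1
      exact gr_congr (by push_cast [← h4]; ring) h3
    · exact (hE c.1 c.2).2.2
    · rw [toA_mul]
      conv_lhs => rw [hy, hG'N]
      rw [sum_comp, Fintype.sum_sigma]
      refine Finset.sum_congr rfl fun b _ => ?_
      rw [comp_assoc C, hE' b, comp_sum]
      exact Finset.sum_congr rfl fun c _ => (comp_assoc C _ _ _).symm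
  · intro h
    rw [hz'] at h
    have h3 : IsAlgebraic ℚ y := by
      obtain ⟨g, hg, hg0⟩ := h
      refine ⟨g.comp (F M * Polynomial.X), ?_, ?_⟩
      · intro h4
        rcases Polynomial.comp_eq_zero_iff.1 h4 with h5 | h5
        · exact hg h5
        · have h6 := congrArg Polynomial.natDegree h5.2
          rw [Polynomial.natDegree_mul (hF0 M) Polynomial.X_ne_zero, Polynomial.natDegree_X, Polynomial.natDegree_C] at h6
          omega
      · rw [Polynomial.aeval_comp, hg0]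
    exact algebraic_transfer (by rw [hy]) (by rw [hkey, hG]) h3

/-- If homologically trivial correspondences act locally algebraically on zero-cycles, then they are
algebraic. -/
theorem algebraic_of_zeroCycles (hS : BlochSrinivas C)
    (hz : ∀ (X : 𝒱.Obj) (x : R0 C X), H.cl (toA x) = 0 → ∀ z : C.A X, C.Deg X.dim z →
      ∃ f : ℚ[X], f ≠ 0 ∧ C.act (toA (Polynomial.aeval x f)) z = 0)
    {x : R0 C X} (hx : H.cl (toA x) = 0) : IsAlgebraic ℚ x := by
  have key : ∀ (d : ℕ) (P : 𝒱.Obj) (x : R0 C P), H.cl (toA x) = 0 →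
      Thr C (fun e => e = d) P (toA x) → IsAlgebraic ℚ x := by
    intro d
    induction d with
    | zero =>
      intro P x hxc hT
      obtain ⟨P', y, hyc, ⟨m, D, α, β, s, hD, hsum⟩, h3⟩ := alg_step hS hz hxc hT
      have hm : m = 0 := by
        by_contra hm
        have := (hD ⟨0, Nat.pos_of_ne_zero hm⟩).1
        simp at this
      subst hm
      rw [Finset.univ_eq_empty, Finset.sum_empty] at hsum
      have h0 : y = 0 := toA_inj (by rw [hsum, map_zero])
      refine h3 ?_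
      rw [h0]
      exact isAlgebraic_zero
    | succ d ih =>
      intro P x hxc hT
      obtain ⟨P', y, hyc, hn, h3⟩ := alg_step hS hz hxc hT
      refine h3 (ih P' _ hyc ?_)
      obtain ⟨m, D, α, β, s, hD, hsum⟩ := hn
      exact ⟨m, D, α, β, s, fun a => ⟨Nat.succ_injective (hD a).1, (hD a).2⟩, hsum⟩
  refine key X.dim X x hx ⟨1, fun _ => X, fun _ => dg C X, fun _ => toA x, 0,
    fun a => ⟨rfl, ?_, ?_⟩, ?_⟩
  · rw [add_zero]
    exact dg_mem C X
  · rw [sub_zero]
    exact toA_mem x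
  · rw [Finset.sum_const, Finset.card_univ, Fintype.card_fin, one_smul, dg_comp]

end Pool.Agent.Y148.ZC
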