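import Pool.Agent.Y148.ZC.Alg
import Pool.Agent.Y110.Weak

/-!
# Chow-Kunneth decompositions and algebraic correspondences
-/

open CategoryTheory AlgebraicGeometry
open scoped Polynomial

universe u v w

namespace Pool.Agent.Y148.ZC

open Pool.Agent.H914 Pool.Agent.H914.VarClass Pool.Agent.H914.VarClass.Obj Pool.Agent.W492.BB
  Pool.Agent.W550.Corr Pool.Agent.TH133 Pool.Agent.Y148.BB Pool.Agent.TH829.Kim

set_option linter.unusedSectionVars false
set_option linter.unusedVariables false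

/-- The polynomial `t - j`. -/
noncomputable def lin (j : ℕ) : ℚ[X] := Polynomial.X - Polynomial.C (j : ℚ)

lemma lin_coprime {i j : ℕ} (h : i ≠ j) : IsCoprime (lin i) (lin j) :=
  Polynomial.isCoprime_X_sub_C_of_isUnit_sub (by
    rw [isUnit_iff_ne_zero, sub_ne_zero]
    exact_mod_cast h)

lemma exists_part {M : ℚ[X]} (hM : M ≠ 0) {j : ℕ} (hj : lin j ∣ M) :
    ∃ p : ℚ[X], M ∣ p * (1 - p) ∧ lin j ∣ 1 - p ∧
      (∀ D, IsCoprime D (lin j) → D ∣ M → D ∣ p) ∧ ∃ (a : ℕ) (M' : ℚ[X]), M = lin j ^ a * M' ∧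
        M' ∣ p := by
  obtain ⟨M', hM', hnd⟩ := Polynomial.exists_eq_pow_rootMultiplicity_mul_and_not_dvd M hM (j : ℚ)
  obtain ⟨a, ha⟩ : ∃ a, a = M.rootMultiplicity (j : ℚ) := ⟨_, rfl⟩
  rw [← ha] at hM'
  change M = lin j ^ a * M' at hM'
  change ¬ lin j ∣ M' at hnd
  have hirr : Irreducible (lin j) := Polynomial.irreducible_X_sub_C _
  have hco : IsCoprime (lin j) M' := (hirr.coprime_iff_not_dvd).2 hnd
  have ha0 : a ≠ 0 := by
    rintro rfl
    rw [pow_zero, one_mul] at hM'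
    exact hnd (hM' ▸ hj)
  obtain ⟨r, s, hrs⟩ := hco.pow_left (m := a)
  refine ⟨s * M', ?_, ?_, ?_, a, M', hM', dvd_mul_left _ _⟩
  · have h1 : 1 - s * M' = r * lin j ^ a := by rw [← hrs]; ring
    rw [h1]
    exact ⟨s * r, by rw [hM']; ring⟩
  · have h1 : 1 - s * M' = r * lin j ^ a := by rw [← hrs]; ring
    rw [h1]
    exact (dvd_pow_self _ ha0).mul_left _
  · intro D hD hDM
    rw [hM'] at hDM
    exact ((hD.pow_right (n := a)).dvd_of_dvd_mul_left hDM).mul_left _

lemma exists_spectral (n : ℕ) {M : ℚ[X]} (hM : M ≠ 0) (hd : ∀ j ≤ n, lin j ∣ M) :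
    ∃ q : ℕ → ℚ[X], (∀ i ≤ n, ∀ j ≤ n, i ≠ j → M ∣ q i * q j) ∧
      (∑ i ∈ Finset.range (n + 1), q i = 1) ∧ ∀ i ≤ n, ∀ j ≤ n, i ≠ j → lin j ∣ q i := by
  have h1 : ∀ j, ∃ p : ℚ[X], j ≤ n → (M ∣ p * (1 - p) ∧ lin j ∣ 1 - p ∧
      (∀ D, IsCoprime D (lin j) → D ∣ M → D ∣ p) ∧ ∃ (a : ℕ) (M' : ℚ[X]), M = lin j ^ a * M' ∧
        M' ∣ p) := by
    intro j
    by_cases hj : j ≤ n
    · obtain ⟨p, hp⟩ := exists_part hM (hd j hj)
      exact ⟨p, fun _ => hp⟩
    · exact ⟨0, fun h => absurd h hj⟩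
  choose p hp using h1
  have hpp : ∀ i ≤ n, ∀ j ≤ n, i ≠ j → M ∣ p i * p j := by
    intro i hi j hj hij
    obtain ⟨a, M', hM', hd'⟩ := (hp j hj).2.2.2
    have h2 : lin j ^ a ∣ p i := (hp i hi).2.2.1 _ ((lin_coprime (Ne.symm hij)).pow_left)
      (by rw [hM']; exact dvd_mul_right _ _)
    rw [hM']
    exact mul_dvd_mul h2 hd'
  have hpl : ∀ i ≤ n, ∀ j ≤ n, i ≠ j → lin j ∣ p i := fun i hi j hj hij =>
    (hp i hi).2.2.1 _ (lin_coprime (Ne.symm hij)) (hd j hj)
  obtain ⟨S, hS⟩ : ∃ S : Finset ℕ, S = (Finset.range (n + 1)).erase 0 := ⟨_, rfl⟩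
  have hSm : ∀ i ∈ S, 1 ≤ i ∧ i ≤ n := fun i hi => by
    rw [hS, Finset.mem_erase, Finset.mem_range] at hi
    omega
  have hsplit : ∀ j, j ≠ 0 → j ≤ n → 1 - ∑ i ∈ S, p i = (1 - p j) - ∑ i ∈ S.erase j, p i := by
    intro j hj0 hj
    have hjS : j ∈ S := by
      rw [hS, Finset.mem_erase, Finset.mem_range]
      omega
    rw [← Finset.add_sum_erase _ _ hjS]
    ring
  obtain ⟨q, hq0, hqs⟩ : ∃ q : ℕ → ℚ[X], q 0 = 1 - ∑ i ∈ S, p i ∧ ∀ i, i ≠ 0 → q i = p i :=
    ⟨fun i => if i = 0 then 1 - ∑ i ∈ S, p i else p i, if_pos rfl, fun i hi => if_neg hi⟩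
  have hq0j : ∀ j, j ≠ 0 → j ≤ n → M ∣ q 0 * q j := by
    intro j hj0 hj
    rw [hq0, hqs j hj0, hsplit j hj0 hj, sub_mul, mul_comm (1 - p j)]
    refine dvd_sub (hp j hj).1 ?_
    rw [Finset.sum_mul]
    refine Finset.dvd_sum fun i hi => ?_
    have h3 := hSm i (Finset.mem_of_mem_erase hi)
    exact hpp i h3.2 j hj (Finset.ne_of_mem_erase hi)
  refine ⟨q, ?_, ?_, ?_⟩
  · intro i hi j hj hij
    by_cases hi0 : i = 0
    · subst hi0
      exact hq0j j (Ne.symm hij) hj
    · by_cases hj0 : j = 0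
      · subst hj0
        rw [mul_comm]
        exact hq0j i hi0 hi
      · rw [hqs i hi0, hqs j hj0]
        exact hpp i hi j hj hij
  · rw [← Finset.add_sum_erase _ _ (Finset.mem_range.2 (Nat.succ_pos n)), ← hS, hq0]
    have h3 : ∑ i ∈ S, q i = ∑ i ∈ S, p i := Finset.sum_congr rfl fun i hi => by
      have h4 := hSm i hi
      exact hqs i (by omega)
    rw [h3]
    ring
  · intro i hi j hj hij
    by_cases hi0 : i = 0
    · subst hi0
      rw [hq0, hsplit j (Ne.symm hij) hj]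
      refine dvd_sub (hp j hj).2.1 (Finset.dvd_sum fun i hi => ?_)
      have h3 := hSm i (Finset.mem_of_mem_erase hi)
      exact hpl i h3.2 j hj (Finset.ne_of_mem_erase hi)
    · rw [hqs i hi0]
      exact hpl i hi j hj hij

variable {k : Type u} [Field k] {𝒱 : VarClass k} {C : TheoryData.{u, v, 0} 𝒱 ℚ}
  [hC : IsChowProj C] {K : Type w} [Field K]
  {H : WeilTheoryData.{u, v, w} C K} [hH : IsWeilProj H] {X Y Z W P P' : 𝒱.Obj}

include hC hH

/-- If homologically trivial self-correspondences are algebraic, then the Kunneth conjecture gives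
Chow-Kunneth decompositions. -/
theorem exists_isCK_of_algebraic (hK : KunnethConjecture H)
    (halg : ∀ x : R0 C X, H.cl (toA x) = 0 → IsAlgebraic ℚ x) : ∃ π, IsCK H X π := by
  choose κ hκ hκa using hK X
  let f : cor0 C X →+* Module.End K (H.A X) := (actH C X H).comp (cor0 C X).val.toRingHom
  have hf : ∀ a : cor0 C X, f a = actH C X H (a : Cor C X) := fun _ => rfl
  obtain ⟨n, hn⟩ : ∃ n, n = 2 * X.dim := ⟨_, rfl⟩
  obtain ⟨x, hx⟩ : ∃ x : R0 C X, x = ∑ j ∈ Finset.range (n + 1), j • ofA (κ j) (hκ j) := ⟨_, rfl⟩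
  have hfx : ∀ (j : ℕ), j ≤ n → ∀ a : H.A X, a ∈ H.gr X (j : ℤ) → f x a = j • a := by
    intro j hj a ha
    rw [hx, map_sum, LinearMap.sum_apply, Finset.sum_eq_single j]
    · rw [map_nsmul, LinearMap.smul_apply]
      congr 1
      have h1 := hκa j (j : ℤ) a ha
      rw [if_pos rfl] at h1
      exact h1
    · intro i _ hij
      rw [map_nsmul, LinearMap.smul_apply]
      have h1 := hκa i (j : ℤ) a ha
      rw [if_neg (by exact_mod_cast Ne.symm hij)] at h1
      have h2 : f (ofA (κ i) (hκ i)) a = 0 := h1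
      rw [h2, smul_zero]
    · intro h
      exact absurd (Finset.mem_range.2 (by omega)) h
  have hlin : ∀ (j : ℕ), j ≤ n → ∀ (p : ℚ[X]), lin j ∣ p → ∀ a : H.A X, a ∈ H.gr X (j : ℤ) →
      f (Polynomial.aeval x p) a = 0 := by
    intro j hj p hp a ha
    obtain ⟨r, rfl⟩ := hp
    have h1 : Polynomial.aeval x (lin j) = x - (j : R0 C X) := by
      rw [lin, map_sub, Polynomial.aeval_X, Polynomial.aeval_C, map_natCast]
    rw [mul_comm, map_mul, map_mul, Module.End.mul_apply, h1, map_sub, map_natCast,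
      LinearMap.sub_apply, hfx j hj a ha, Module.End.natCast_apply, sub_self, map_zero]
  -- `x` is algebraic
  obtain ⟨L, hL⟩ : ∃ L : ℚ[X], L = ∏ j ∈ Finset.range (n + 1), lin j := ⟨_, rfl⟩
  have hLd : ∀ j ≤ n, lin j ∣ L := fun j hj => by
    rw [hL]
    exact Finset.dvd_prod_of_mem _ (Finset.mem_range.2 (by omega))
  have hLn : L.natDegree ≠ 0 := by
    rw [hL, Polynomial.natDegree_prod _ _ fun j _ => Polynomial.X_sub_C_ne_zero _]
    have h1 : ∀ j ∈ Finset.range (n + 1), (lin j).natDegree = 1 := fun j _ =>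
      Polynomial.natDegree_X_sub_C _
    rw [Finset.sum_congr rfl h1]
    simp
  have hL0 : L ≠ 0 := fun h => hLn (by rw [h, Polynomial.natDegree_zero])
  have hgr : ∀ (g g' : Module.End K (H.A X)), (∀ j ≤ n, ∀ a : H.A X, a ∈ H.gr X (j : ℤ) →
      g a = g' a) → g = g' := by
    intro g g' h
    apply ext_gr H
    intro i a ha
    by_cases ha0 : a = 0
    · rw [ha0, map_zero, map_zero]
    have hm := nonneg_of_mem H ha ha0
    obtain ⟨q, rfl⟩ := Int.eq_ofNat_of_zero_le hm
    refine h q ?_ a ha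
    by_contra h'
    rw [gr_top H (by omega)] at ha
    exact ha0 ((Submodule.mem_bot _).1 ha)
  have hfL : f (Polynomial.aeval x L) = 0 := hgr _ _ fun j hj a ha => by
    rw [hlin j hj L (hLd j hj) a ha, LinearMap.zero_apply]
  have hcL : H.cl (toA (Polynomial.aeval x L)) = 0 := by
    apply hom_zero_of_act H
    intro a
    have h2 : f (Polynomial.aeval x L) a = 0 := by rw [hfL, LinearMap.zero_apply]
    exact h2
  obtain ⟨g, hg, hg0⟩ := halg _ hcL
  rw [← Polynomial.aeval_comp] at hg0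
  have hgL : g.comp L ≠ 0 := by
    intro h4
    rcases Polynomial.comp_eq_zero_iff.1 h4 with h5 | h5
    · exact hg h5
    · apply hLn
      rw [h5.2, Polynomial.natDegree_C]
  obtain ⟨q, hq1, hq2, hq3⟩ := exists_spectral n (M := g.comp L * L) (mul_ne_zero hgL hL0)
    fun j hj => (hLd j hj).mul_left _
  have hM : Polynomial.aeval x (g.comp L * L) = 0 := by rw [map_mul, hg0, zero_mul]
  have horth : ∀ i ≤ n, ∀ j ≤ n, i ≠ j →
      Polynomial.aeval x (q i) * Polynomial.aeval x (q j) = 0 := by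
    intro i hi j hj hij
    obtain ⟨r, hr⟩ := hq1 i hi j hj hij
    rw [← map_mul, hr, map_mul, hM, zero_mul]
  have hsum : ∑ i ∈ Finset.range (n + 1), Polynomial.aeval x (q i) = 1 := by
    rw [← map_sum, hq2, map_one]
  have hidem : ∀ i ≤ n, Polynomial.aeval x (q i) * Polynomial.aeval x (q i) =
      Polynomial.aeval x (q i) := by
    intro i hi
    have h1 : Polynomial.aeval x (q i) * ∑ j ∈ Finset.range (n + 1), Polynomial.aeval x (q j) =
        Polynomial.aeval x (q i) := by rw [hsum, mul_one]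
    rw [Finset.mul_sum, Finset.sum_eq_single i] at h1
    · exact h1
    · intro j hj hji
      exact horth i hi j (by have := Finset.mem_range.1 hj; omega) (Ne.symm hji)
    · intro h
      exact absurd (Finset.mem_range.2 (by omega)) h
  let P : ℕ → Cor C X := fun i => if i ≤ n then ((Polynomial.aeval x (q i) : R0 C X) : Cor C X)
    else 0
  have hP : ∀ i, i ≤ n → P i = ((Polynomial.aeval x (q i) : R0 C X) : Cor C X) :=
    fun i h => if_pos h
  have hP0 : ∀ i, ¬ i ≤ n → P i = 0 := fun i h => if_neg h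
  refine ⟨P, isCK_of (P := P) ?_ ?_ ?_ ?_ ?_⟩
  · intro i
    by_cases h : i ≤ n
    · rw [hP i h]
      exact (Polynomial.aeval x (q i) : R0 C X).2
    · rw [hP0 i h]
      exact (cor0 C X).zero_mem
  · exact fun i hi => hP0 i (by omega)
  · intro i j
    by_cases h : i ≤ n
    · by_cases h' : j ≤ n
      · rw [hP i h, hP j h']
        split_ifs with hij
        · subst hij
          exact congrArg Subtype.val (hidem i h)
        · exact congrArg Subtype.val (horth i h j h' hij)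
      · rw [hP0 j h', mul_zero, if_neg (by omega)]
    · rw [hP0 i h, zero_mul]
      split_ifs <;> rfl
  · rw [← hn]
    have h1 : ∀ i ∈ Finset.range (n + 1),
        P i = ((Polynomial.aeval x (q i) : R0 C X) : Cor C X) := fun i hi =>
      hP i (by have := Finset.mem_range.1 hi; omega)
    rw [Finset.sum_congr rfl h1]
    have h2 := congrArg Subtype.val hsum
    rw [AddSubmonoidClass.coe_finsetSum] at h2
    exact h2
  · intro i m a ha
    by_cases ha0 : a = 0
    · rw [ha0, map_zero]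
      split_ifs <;> rfl
    have hm := nonneg_of_mem H ha ha0
    obtain ⟨j, rfl⟩ := Int.eq_ofNat_of_zero_le hm
    have hj : j ≤ n := by
      by_contra h'
      rw [gr_top H (by omega)] at ha
      exact ha0 ((Submodule.mem_bot _).1 ha)
    by_cases h : i ≤ n
    · rw [hP i h, ← hf]
      by_cases hij : j = i
      · subst hij
        rw [if_pos rfl]
        have h1 : f (∑ i ∈ Finset.range (n + 1), Polynomial.aeval x (q i)) a = a := by
          rw [hsum, map_one, Module.End.one_apply]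
        rw [map_sum, LinearMap.sum_apply, Finset.sum_eq_single j] at h1
        · exact h1
        · intro i' hi' hne
          exact hlin j hj _ (hq3 i' (by have := Finset.mem_range.1 hi'; omega) j hj hne) a ha
        · intro h3
          exact absurd (Finset.mem_range.2 (by omega)) h3
      · rw [if_neg (by exact_mod_cast hij)]
        exact hlin j hj _ (hq3 i h j hj (Ne.symm hij)) a ha
    · rw [hP0 i h, map_zero, LinearMap.zero_apply, if_neg (by
        intro h3
        have h4 : j = i := by exact_mod_cast h3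
        omega)]

lemma iter_dg (G : C.A (X.prod X)) (n : ℕ) : (fun Γ => C.comp Γ G)^[n] (dg C X) = pw C G n := by
  induction n with
  | zero => rfl
  | succ n ih => rw [Function.iterate_succ_apply', ih, ← pw_succ']

lemma algebraic_iff (x : R0 C X) : IsAlgebraic ℚ x ↔ ∃ f : ℚ[X], f ≠ 0 ∧
    f.sum (fun n c => c • (fun Γ => C.comp Γ (toA x))^[n] (dg C X)) = 0 := by
  have h : ∀ f : ℚ[X], f.sum (fun n c => c • (fun Γ => C.comp Γ (toA x))^[n] (dg C X)) =
      toA (Polynomial.aeval x f) := by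
    intro f
    rw [toA_aeval]
    simp only [iter_dg (H := H)]
  constructor
  · rintro ⟨f, hf, h0⟩
    exact ⟨f, hf, by rw [h, h0, map_zero]⟩
  · rintro ⟨f, hf, h0⟩
    exact ⟨f, hf, toA_inj (by rw [← h, h0, map_zero])⟩

/-- **Theorem.** Chow-Kunneth decompositions and local algebraicity on zero-cycles. -/
theorem alg_main (hS : BlochSrinivas C) :
    List.TFAE [AllChowKunneth H ∧ HomTrivialAlgebraic H,
      KunnethConjecture H ∧ HomTrivialAlgebraic H,
      KunnethConjecture H ∧ AlgebraicOnZeroCycles H] := by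
  tfae_have 1 → 2 := by
    rintro ⟨h1, h2⟩
    refine ⟨fun X m => ?_, h2⟩
    obtain ⟨π, hπ⟩ := h1 X
    refine ⟨π m, hπ.deg m, fun l a ha => ?_⟩
    split_ifs with h
    · subst h
      exact hπ.act_self m a ha
    · exact hπ.act_ne m l a h ha
  tfae_have 2 → 1 := by
    rintro ⟨h1, h2⟩
    refine ⟨fun X => exists_isCK_of_algebraic h1 fun x hx => ?_, h2⟩
    exact (algebraic_iff (H := H) x).2 (h2 X (toA x) (toA_mem x) hx)
  tfae_have 2 → 3 := by
    rintro ⟨h1, h2⟩
    refine ⟨h1, fun X G hG hc z hz => ?_⟩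
    obtain ⟨f, hf, h0⟩ := (algebraic_iff (H := H) (ofA G hG)).2 (h2 X G hG hc)
    refine ⟨f, hf, ?_⟩
    have h3 := act_aeval (ofA G hG) f z
    rw [h0, map_zero, TheoryData.act_zero] at h3
    exact h3.symm
  tfae_have 3 → 2 := by
    rintro ⟨h1, h2⟩
    refine ⟨h1, fun X G hG hc => ?_⟩
    refine (algebraic_iff (H := H) (ofA G hG)).1 (algebraic_of_zeroCycles (H := H) hS ?_ hc)
    intro X x hx z hz
    obtain ⟨f, hf, h0⟩ := h2 X (toA x) (toA_mem x) hx z hz
    exact ⟨f, hf, by rw [act_aeval]; exact h0⟩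
  tfae_finish

end Pool.Agent.Y148.ZC
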