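import Pool.Agent.Y148.ZC.AlgCK
import Pool.Agent.TH133.SelfDual

/-!
# Self-dual Chow-Kunneth decompositions and algebraic correspondences
-/

open CategoryTheory AlgebraicGeometry
open scoped Polynomial

universe u v w

namespace Pool.Agent.Y148.ZC

open Pool.Agent.H914 Pool.Agent.H914.VarClass Pool.Agent.H914.VarClass.Obj Pool.Agent.W492.BB
  Pool.Agent.W550.Corr Pool.Agent.TH133 Pool.Agent.Y148.BB Pool.Agent.TH829.Kim

set_option linter.unusedSectionVars false
set_option linter.unusedVariables false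

/-- The polynomial `n - t`. -/
noncomputable def rev (n : ℕ) : ℚ[X] := Polynomial.C (n : ℚ) - Polynomial.X

lemma rev_rev (n : ℕ) : (rev n).comp (rev n) = Polynomial.X := by
  simp [rev]

lemma comp_rev_rev (n : ℕ) (p : ℚ[X]) : (p.comp (rev n)).comp (rev n) = p := by
  rw [Polynomial.comp_assoc, rev_rev, Polynomial.comp_X]

lemma lin_comp_rev {n j : ℕ} (hj : j ≤ n) : (lin j).comp (rev n) = -lin (n - j) := by
  simp only [lin, rev, Polynomial.sub_comp, Polynomial.X_comp, Polynomial.C_comp, Nat.cast_sub hj,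
    Polynomial.C_sub]
  ring

lemma comp_dvd {p q : ℚ[X]} (h : p ∣ q) (r : ℚ[X]) : p.comp r ∣ q.comp r := by
  obtain ⟨s, rfl⟩ := h
  exact ⟨s.comp r, Polynomial.mul_comp _ _ _⟩

lemma comp_rev_ne {n : ℕ} {p : ℚ[X]} (hp : p ≠ 0) : p.comp (rev n) ≠ 0 := by
  intro h
  apply hp
  rw [← comp_rev_rev n p, h, Polynomial.zero_comp]

variable {k : Type u} [Field k] {𝒱 : VarClass k} {C : TheoryData.{u, v, 0} 𝒱 ℚ}
  [hC : IsChowProj C] {K : Type w} [Field K]
  {H : WeilTheoryData.{u, v, w} C K} [hH : IsWeilProj H] {X Y Z W P P' : 𝒱.Obj}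

include hC

lemma tp_pw (G : C.A (X.prod X)) (n : ℕ) : tp C (pw C G n) = pw C (tp C G) n := by
  induction n with
  | zero => rw [pw_zero, pw_zero, tp_dg]
  | succ n ih => rw [pw_succ, tp_comp C (ch_comm C), ih, pw_succ']

lemma tp_aeval {x y : R0 C X} (h : toA y = tp C (toA x)) (p : ℚ[X]) :
    tp C (toA (Polynomial.aeval x p)) = toA (Polynomial.aeval y p) := by
  rw [toA_aeval, toA_aeval, Polynomial.sum_def, Polynomial.sum_def, tp_sum]
  refine Finset.sum_congr rfl fun n _ => ?_
  rw [tp_smul, tp_pw, h]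

include hH

/-- From a self-correspondence which acts as `j` on `H^j` and whose transpose is `2 d - x`. -/
theorem exists_selfDual (halg : ∀ x : R0 C X, H.cl (toA x) = 0 → IsAlgebraic ℚ x) {x : R0 C X}
    (hfx : ∀ (j : ℕ), j ≤ 2 * X.dim → ∀ a : H.A X, a ∈ H.gr X (j : ℤ) →
      actH C X H (x : Cor C X) a = j • a)
    (htp : tp C (toA x) = toA (Polynomial.aeval x (rev (2 * X.dim)))) :
    ∃ π, IsCK H X π ∧ IsSelfDual C π := by
  let f : cor0 C X →+* Module.End K (H.A X) := (actH C X H).comp (cor0 C X).val.toRingHom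
  have hf : ∀ a : cor0 C X, f a = actH C X H (a : Cor C X) := fun _ => rfl
  obtain ⟨n, hn⟩ : ∃ n, n = 2 * X.dim := ⟨_, rfl⟩
  rw [← hn] at hfx htp
  have hlin : ∀ (j : ℕ), j ≤ n → ∀ (p : ℚ[X]), lin j ∣ p → ∀ a : H.A X, a ∈ H.gr X (j : ℤ) →
      f (Polynomial.aeval x p) a = 0 := by
    intro j hj p hp a ha
    obtain ⟨r, rfl⟩ := hp
    have h1 : Polynomial.aeval x (lin j) = x - (j : R0 C X) := by
      rw [lin, map_sub, Polynomial.aeval_X, Polynomial.aeval_C, map_natCast]
    have h2 : f x a = j • a := hfx j hj a ha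
    rw [mul_comm, map_mul, map_mul, Module.End.mul_apply, h1, map_sub, map_natCast,
      LinearMap.sub_apply, h2, Module.End.natCast_apply, sub_self, map_zero]
  have hone : ∀ (j : ℕ), j ≤ n → ∀ (p : ℚ[X]), lin j ∣ 1 - p → ∀ a : H.A X,
      a ∈ H.gr X (j : ℤ) → f (Polynomial.aeval x p) a = a := by
    intro j hj p hp a ha
    have h1 := hlin j hj _ hp a ha
    rw [map_sub, map_one, map_sub, map_one, LinearMap.sub_apply, Module.End.one_apply,
      sub_eq_zero] at h1
    exact h1.symm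
  -- `x` is algebraic
  obtain ⟨L, hL⟩ : ∃ L : ℚ[X], L = ∏ j ∈ Finset.range (n + 1), lin j := ⟨_, rfl⟩
  have hLd : ∀ j ≤ n, lin j ∣ L := fun j hj => by
    rw [hL]
    exact Finset.dvd_prod_of_mem _ (Finset.mem_range.2 (by omega))
  have hLn : L.natDegree ≠ 0 := by
    rw [hL, Polynomial.natDegree_prod _ _ fun j _ => Polynomial.X_sub_C_ne_zero _]
    have h1 : ∀ j ∈ Finset.range (n + 1), (lin j).natDegree = 1 := fun j _ =>
      Polynomial.natDegree_X_sub_C _
    rw [Finset.sum_congr rfl h1]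
    simp
  have hL0 : L ≠ 0 := fun h => hLn (by rw [h, Polynomial.natDegree_zero])
  have hfL : f (Polynomial.aeval x L) = 0 := by
    apply ext_gr H
    intro i a ha
    by_cases ha0 : a = 0
    · rw [ha0, map_zero, map_zero]
    have hm := nonneg_of_mem H ha ha0
    obtain ⟨q, rfl⟩ := Int.eq_ofNat_of_zero_le hm
    have hq : q ≤ n := by
      by_contra h'
      rw [gr_top H (by omega)] at ha
      exact ha0 ((Submodule.mem_bot _).1 ha)
    rw [hlin q hq L (hLd q hq) a ha, LinearMap.zero_apply]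
  have hcL : H.cl (toA (Polynomial.aeval x L)) = 0 := by
    apply hom_zero_of_act H
    intro a
    have h2 : f (Polynomial.aeval x L) a = 0 := by rw [hfL, LinearMap.zero_apply]
    exact h2
  obtain ⟨g, hg, hg0⟩ := halg _ hcL
  rw [← Polynomial.aeval_comp] at hg0
  have hgL : g.comp L ≠ 0 := by
    intro h4
    rcases Polynomial.comp_eq_zero_iff.1 h4 with h5 | h5
    · exact hg h5
    · apply hLn
      rw [h5.2, Polynomial.natDegree_C]
  obtain ⟨N, hN⟩ : ∃ N : ℚ[X], N = g.comp L * L := ⟨_, rfl⟩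
  have hN0 : N ≠ 0 := by rw [hN]; exact mul_ne_zero hgL hL0
  obtain ⟨M, hM⟩ : ∃ M : ℚ[X], M = N * N.comp (rev n) := ⟨_, rfl⟩
  have hM0 : M ≠ 0 := by rw [hM]; exact mul_ne_zero hN0 (comp_rev_ne hN0)
  have hMr : M.comp (rev n) = M := by
    rw [hM, Polynomial.mul_comp, comp_rev_rev, mul_comm]
  have hMx : Polynomial.aeval x M = 0 := by
    rw [hM, map_mul, hN, map_mul, hg0, zero_mul, zero_mul]
  have hMd : ∀ j ≤ n, lin j ∣ M := fun j hj => by
    rw [hM, hN]
    exact ((hLd j hj).mul_left _).mul_right _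
  have hdvd : ∀ p : ℚ[X], M ∣ p → Polynomial.aeval x p = 0 := by
    rintro _ ⟨r, rfl⟩
    rw [map_mul, hMx, zero_mul]
  have h1 : ∀ j, ∃ p : ℚ[X], j ≤ n → (M ∣ p * (1 - p) ∧ lin j ∣ 1 - p ∧
      (∀ D, IsCoprime D (lin j) → D ∣ M → D ∣ p) ∧ ∃ (a : ℕ) (M' : ℚ[X]), M = lin j ^ a * M' ∧
        M' ∣ p) := by
    intro j
    by_cases hj : j ≤ n
    · obtain ⟨p, hp⟩ := exists_part hM0 (hMd j hj)
      exact ⟨p, fun _ => hp⟩
    · exact ⟨0, fun h => absurd h hj⟩
  choose p hp using h1
  have hpp : ∀ i ≤ n, ∀ j ≤ n, i ≠ j → M ∣ p i * p j := by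
    intro i hi j hj hij
    obtain ⟨a, M', hM', hd'⟩ := (hp j hj).2.2.2
    have h2 : lin j ^ a ∣ p i := (hp i hi).2.2.1 _ ((lin_coprime (Ne.symm hij)).pow_left)
      (by rw [hM']; exact dvd_mul_right _ _)
    rw [hM']
    exact mul_dvd_mul h2 hd'
  have hpl : ∀ i ≤ n, ∀ j ≤ n, i ≠ j → lin j ∣ p i := fun i hi j hj hij =>
    (hp i hi).2.2.1 _ (lin_coprime (Ne.symm hij)) (hMd j hj)
  have hpr : ∀ i j, i < X.dim → j < X.dim → M ∣ p i * (p j).comp (rev n) := by
    intro i j hi hj
    obtain ⟨a, M', hM', hd'⟩ := (hp j (by omega)).2.2.2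
    have h2 : M = (-lin (n - j)) ^ a * M'.comp (rev n) := by
      rw [← lin_comp_rev (by omega), ← hMr, hM', Polynomial.mul_comp, Polynomial.pow_comp]
    have h3 : (-lin (n - j)) ^ a ∣ p i := by
      refine (hp i (by omega)).2.2.1 _ ?_ (by rw [h2]; exact dvd_mul_right _ _)
      exact ((lin_coprime (by omega : n - j ≠ i)).neg_left).pow_left
    rw [h2]
    exact mul_dvd_mul h3 (comp_dvd hd' _)
  have htpx : ∀ q : ℚ[X], tp C (toA (Polynomial.aeval x q)) =
      toA (Polynomial.aeval x (q.comp (rev n))) := by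
    intro q
    rw [tp_aeval htp.symm, Polynomial.aeval_comp]
  let q : ℕ → Cor C X := fun i => if i < X.dim then
    ((Polynomial.aeval x (p i) : R0 C X) : Cor C X) else 0
  have hq : ∀ i, i < X.dim → q i = ((Polynomial.aeval x (p i) : R0 C X) : Cor C X) :=
    fun i h => if_pos h
  have hq0 : ∀ i, ¬ i < X.dim → q i = 0 := fun i h => if_neg h
  have hqt : ∀ i, i < X.dim → tpR C X (q i) =
      ((Polynomial.aeval x ((p i).comp (rev n)) : R0 C X) : Cor C X) := fun i h => by
    rw [hq i h]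
    exact htpx (p i)
  refine selfDual_of_half q ?_ ?_ ?_ ?_ ?_ ?_ ?_
  · intro i
    by_cases h : i < X.dim
    · rw [hq i h]
      exact (Polynomial.aeval x (p i) : R0 C X).2
    · rw [hq0 i h]
      exact (cor0 C X).zero_mem
  · exact fun i hi => hq0 i (by omega)
  · intro i j
    by_cases h : i < X.dim
    · by_cases h' : j < X.dim
      · rw [hq i h, hq j h']
        split_ifs with hij
        · subst hij
          have h3 : Polynomial.aeval x (p i) * Polynomial.aeval x (p i) =
              Polynomial.aeval x (p i) := by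
            have h4 := hdvd _ (hp i (by omega)).1
            rw [mul_sub, mul_one, map_sub, map_mul, sub_eq_zero] at h4
            exact h4.symm
          exact congrArg Subtype.val h3
        · have h3 : Polynomial.aeval x (p i) * Polynomial.aeval x (p j) = 0 := by
            rw [← map_mul]
            exact hdvd _ (hpp i (by omega) j (by omega) hij)
          exact congrArg Subtype.val h3
      · rw [hq0 j h', mul_zero, if_neg (by omega)]
    · rw [hq0 i h, zero_mul]
      split_ifs <;> rfl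
  · intro i j
    by_cases h : i < X.dim
    · by_cases h' : j < X.dim
      · rw [hq i h, hqt j h']
        have h3 : Polynomial.aeval x (p i) * Polynomial.aeval x ((p j).comp (rev n)) = 0 := by
          rw [← map_mul]
          exact hdvd _ (hpr i j h h')
        exact congrArg Subtype.val h3
      · rw [hq0 j h', map_zero, mul_zero]
    · rw [hq0 i h, zero_mul]
  · intro i j
    by_cases h : i < X.dim
    · by_cases h' : j < X.dim
      · rw [hqt i h, hq j h']
        have h3 : Polynomial.aeval x ((p i).comp (rev n)) * Polynomial.aeval x (p j) = 0 := by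
          rw [← map_mul, mul_comm]
          exact hdvd _ (hpr j i h' h)
        exact congrArg Subtype.val h3
      · rw [hq0 j h', mul_zero]
    · rw [hq0 i h, map_zero, zero_mul]
  · intro i m a hi ha
    by_cases ha0 : a = 0
    · rw [ha0, map_zero]
      split_ifs <;> rfl
    have hm := nonneg_of_mem H ha ha0
    obtain ⟨j, rfl⟩ := Int.eq_ofNat_of_zero_le hm
    have hj : j ≤ n := by
      by_contra h'
      rw [gr_top H (by omega)] at ha
      exact ha0 ((Submodule.mem_bot _).1 ha)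
    rw [hq i hi, ← hf]
    by_cases hij : j = i
    · subst hij
      rw [if_pos rfl]
      exact hone j hj _ (hp j hj).2.1 a ha
    · rw [if_neg (by exact_mod_cast hij)]
      exact hlin j hj _ (hpl i (by omega) j hj (Ne.symm hij)) a ha
  · intro i m a hi ha
    by_cases ha0 : a = 0
    · rw [ha0, map_zero]
      split_ifs <;> rfl
    have hm := nonneg_of_mem H ha ha0
    obtain ⟨j, rfl⟩ := Int.eq_ofNat_of_zero_le hm
    have hj : j ≤ n := by
      by_contra h'
      rw [gr_top H (by omega)] at ha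
      exact ha0 ((Submodule.mem_bot _).1 ha)
    rw [hqt i hi, ← hf, ← hn]
    by_cases hij : j = n - i
    · subst hij
      rw [if_pos rfl]
      refine hone _ hj _ ?_ a ha
      have h3 := comp_dvd (hp i (by omega)).2.1 (rev n)
      rw [lin_comp_rev (by omega), neg_dvd, Polynomial.sub_comp, Polynomial.one_comp] at h3
      exact h3
    · rw [if_neg (by exact_mod_cast hij)]
      refine hlin j hj _ ?_ a ha
      have h3 := comp_dvd (hpl i (by omega) (n - j) (by omega) (by omega)) (rev n)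
      rw [lin_comp_rev (by omega), neg_dvd] at h3
      have h4 : n - (n - j) = j := by omega
      rwa [h4] at h3

omit hH in
/-- The sum `∑ j π_j`. -/
noncomputable def wsum (n : ℕ) (π : ℕ → C.A (X.prod X)) : C.A (X.prod X) :=
  ∑ j ∈ Finset.range (n + 1), (j : ℚ) • π j

lemma wsum_mem {π : ℕ → C.A (X.prod X)} (h : IsCK H X π) (n : ℕ) :
    wsum n π ∈ C.gr (X.prod X) X.dim :=
  Submodule.sum_mem _ fun j _ => Submodule.smul_mem _ _ (h.deg j)

/-- The transpose of `∑ j π_j` is `2 d - ∑ j π'_j`, `π'` the dual decomposition. -/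
lemma tp_wsum {π : ℕ → C.A (X.prod X)} (h : IsCK H X π) :
    tp C (wsum (2 * X.dim) π) =
      ((2 * X.dim : ℕ) : ℚ) • dg C X - wsum (2 * X.dim) (dualCK C π) := by
  have h1 : ((2 * X.dim : ℕ) : ℚ) • dg C X - wsum (2 * X.dim) (dualCK C π) =
      ∑ j ∈ Finset.range (2 * X.dim + 1), (((2 * X.dim : ℕ) : ℚ) - j) • dualCK C π j := by
    rw [← h.dual.sum, wsum, Finset.smul_sum, ← Finset.sum_sub_distrib]
    exact Finset.sum_congr rfl fun j _ => (sub_smul _ _ _).symm
  rw [h1, wsum, tp_sum, ← Finset.sum_range_reflect]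
  refine Finset.sum_congr rfl fun j hj => ?_
  have hj' := Finset.mem_range.1 hj
  have h2 : 2 * X.dim + 1 - 1 - j = 2 * X.dim - j := by omega
  rw [h2, tp_smul, Nat.cast_sub (by omega)]
  congr 1
  exact (if_pos (by omega)).symm

lemma actH_wsum {π : ℕ → C.A (X.prod X)} (h : IsCK H X π) {j : ℕ} (hj : j ≤ 2 * X.dim) {a : H.A X}
    (ha : a ∈ H.gr X (j : ℤ)) :
    H.act (H.cl (wsum (2 * X.dim) π)) a = j • a := by
  have h1 : wsum (2 * X.dim) π = ∑ i ∈ Finset.range (2 * X.dim + 1), i • π i :=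
    Finset.sum_congr rfl fun i _ => Nat.cast_smul_eq_nsmul ℚ i (π i)
  rw [h1, map_sum, act_sum, Finset.sum_eq_single j]
  · rw [map_nsmul]
    have h2 : H.act (j • H.cl (π j)) a = j • H.act (H.cl (π j)) a := by
      simp only [← actB_apply, map_nsmul, LinearMap.smul_apply]
    rw [h2, h.act_self j a ha]
  · intro i _ hij
    rw [map_nsmul]
    have h2 : H.act (i • H.cl (π i)) a = i • H.act (H.cl (π i)) a := by
      simp only [← actB_apply, map_nsmul, LinearMap.smul_apply]
    rw [h2, h.act_ne i j a (by exact_mod_cast Ne.symm hij) ha, smul_zero]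
  · intro h3
    exact absurd (Finset.mem_range.2 (by omega)) h3

/-- If homologically trivial self-correspondences are algebraic, then a variety with a Chow-Kunneth
decomposition has a self-dual one. -/
theorem selfDual_of_algebraic (halg : ∀ x : R0 C X, H.cl (toA x) = 0 → IsAlgebraic ℚ x)
    {π : ℕ → C.A (X.prod X)} (h : IsCK H X π) : ∃ π, IsCK H X π ∧ IsSelfDual C π := by
  obtain ⟨n, hn⟩ : ∃ n, n = 2 * X.dim := ⟨_, rfl⟩
  obtain ⟨y, hy⟩ : ∃ y : R0 C X, toA y = wsum (2 * X.dim) π := ⟨ofA _ (wsum_mem h _), rfl⟩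
  obtain ⟨y', hy'⟩ : ∃ y' : R0 C X, toA y' = wsum (2 * X.dim) (dualCK C π) :=
    ⟨ofA _ (wsum_mem h.dual _), rfl⟩
  have ht : tp C (toA y) = toA (((n : ℕ) : ℚ) • (1 : R0 C X) - y') := by
    rw [hy, tp_wsum h, map_sub, map_smul, toA_one, hy', hn]
  have ht' : tp C (toA y') = toA (((n : ℕ) : ℚ) • (1 : R0 C X) - y) := by
    rw [hy', tp_wsum h.dual, dualCK_dualCK h, map_sub, map_smul, toA_one, hy, hn]
  refine exists_selfDual halg (x := (1 / 2 : ℚ) • (y + y')) ?_ ?_
  · intro j hj a ha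
    let f : cor0 C X →+* Module.End K (H.A X) := (actH C X H).comp (cor0 C X).val.toRingHom
    change f ((1 / 2 : ℚ) • (y + y')) a = j • a
    have h1 : f y a = j • a := by
      have h2 := actH_wsum h hj ha
      rw [← hy] at h2
      exact h2
    have h3 : f y' a = j • a := by
      have h2 := actH_wsum h.dual hj ha
      rw [← hy'] at h2
      exact h2
    have h4 : (1 / 2 : ℚ) • (y + y') = ((1 / 2 : ℚ) • (1 : R0 C X)) * (y + y') := by
      rw [smul_mul_assoc, one_mul]
    have h5 : (2 : ℕ) • ((1 / 2 : ℚ) • (1 : R0 C X)) = 1 := by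
      rw [← Nat.cast_smul_eq_nsmul ℚ, smul_smul]
      norm_num
    have h6 : (2 : ℕ) • f ((1 / 2 : ℚ) • (1 : R0 C X)) = 1 := by
      rw [← map_nsmul, h5, map_one]
    rw [h4, map_mul, Module.End.mul_apply, map_add, LinearMap.add_apply, h1, h3, ← two_nsmul,
      smul_comm, map_nsmul, map_nsmul]
    have h7 := LinearMap.congr_fun h6 a
    rw [LinearMap.smul_apply, Module.End.one_apply] at h7
    rw [h7]
  · have h1 : Polynomial.aeval ((1 / 2 : ℚ) • (y + y')) (rev (2 * X.dim)) =
        ((n : ℕ) : ℚ) • (1 : R0 C X) - (1 / 2 : ℚ) • (y + y') := by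
      rw [rev, map_sub, Polynomial.aeval_C, Polynomial.aeval_X, Algebra.algebraMap_eq_smul_one, hn]
    rw [h1, map_smul, tp_smul, map_add, tp_add, ht, ht']
    simp only [map_sub, map_smul, map_add]
    module

/-- **Theorem.** Self-dual Chow-Kunneth decompositions and local algebraicity on zero-cycles. -/
theorem sd_main (hS : BlochSrinivas C) :
    List.TFAE [(∀ X : 𝒱.Obj, ∃ π, IsCK H X π ∧ IsSelfDual C π) ∧ HomTrivialAlgebraic H,
      KunnethConjecture H ∧ HomTrivialAlgebraic H,
      KunnethConjecture H ∧ AlgebraicOnZeroCycles H] := by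
  have h0 := alg_main (H := H) hS
  have h12 := h0.out 0 1
  have h23 := h0.out 1 2
  tfae_have 1 → 2 := by
    rintro ⟨h1, h2⟩
    refine h12.1 ⟨fun X => ?_, h2⟩
    obtain ⟨π, hπ, _⟩ := h1 X
    exact ⟨π, hπ⟩
  tfae_have 2 → 1 := by
    intro h
    obtain ⟨h1, h2⟩ := h12.2 h
    refine ⟨fun X => ?_, h2⟩
    obtain ⟨π, hπ⟩ := h1 X
    exact selfDual_of_algebraic
      (fun x hx => (algebraic_iff (H := H) x).2 (h2 X (toA x) (toA_mem x) hx)) hπ
  tfae_have 2 ↔ 3 := h23
  tfae_finish

end Pool.Agent.Y148.ZC
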