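import Pool.Agent.Y148.ZC.Defs

/-!
# Phantoms and countability: definitions
-/

open CategoryTheory AlgebraicGeometry

universe u v w

namespace Pool.Agent.Y148.ZC

open Pool.Agent.H914 Pool.Agent.H914.VarClass Pool.Agent.H914.VarClass.Obj Pool.Agent.W492.BB
  Pool.Agent.W550.Corr Pool.Agent.TH133

variable {k : Type u} [Field k] {𝒱 : VarClass k} {C : TheoryData.{u, v, 0} 𝒱 ℚ}
  {K : Type w} [Field K]

variable (C) in
/-- A fact over every uncountable algebraically closed field: if the image of the group of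
zero-cycles of `X` under a correspondence `Γ ∈ CH^(dim X)(X × X)` is countable, then `Γ` kills the
zero-cycles of degree zero. -/
def CountableImage : Prop :=
  ∀ (X : 𝒱.Obj) (Γ : C.A (X.prod X)), C.Deg X.dim Γ →
    Set.Countable {y : C.A X | ∃ x : C.A X, C.Deg X.dim x ∧ y = C.act Γ x} →
    ∀ x : C.A X, C.Deg X.dim x → HasDegree C x 0 → C.act Γ x = 0

/-- The realisation detects zero Chow motives: if `p ∈ CH^(dim X)(X × X)` is an idempotent and acts
as zero on the cohomology of `X`, then `p = 0`. -/
def DetectsZero (H : WeilTheoryData.{u, v, w} C K) : Prop :=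
  ∀ (X : 𝒱.Obj) (p : C.A (X.prod X)), C.Deg X.dim p → C.comp p p = p →
    (∀ a : H.A X, H.act (H.cl p) a = 0) → p = 0

/-- If an idempotent `p ∈ CH^(dim X)(X × X)` acts as zero on the cohomology of `X`, then it acts as
zero on the zero-cycles of `X`. -/
def NoZeroCycles (H : WeilTheoryData.{u, v, w} C K) : Prop :=
  ∀ (X : 𝒱.Obj) (p : C.A (X.prod X)), C.Deg X.dim p → C.comp p p = p →
    (∀ a : H.A X, H.act (H.cl p) a = 0) → ∀ x : C.A X, C.Deg X.dim x → C.act p x = 0

/-- If an idempotent `p ∈ CH^(dim X)(X × X)` acts as zero on the cohomology of `X`, then the group of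
zero-cycles of the motive `(X, p)`, the image of `p` on zero-cycles of `X`, is countable. -/
def CountableZeroCycles (H : WeilTheoryData.{u, v, w} C K) : Prop :=
  ∀ (X : 𝒱.Obj) (p : C.A (X.prod X)), C.Deg X.dim p → C.comp p p = p →
    (∀ a : H.A X, H.act (H.cl p) a = 0) →
    Set.Countable {y : C.A X | ∃ x : C.A X, C.Deg X.dim x ∧ y = C.act p x}

end Pool.Agent.Y148.ZC
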