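import Pool.Agent.Y148.ZC.Kim
import Pool.Agent.Y148.ZC.CntDefs

/-!
# Phantoms and countability
-/

open CategoryTheory AlgebraicGeometry

universe u v w

namespace Pool.Agent.Y148.ZC

open Pool.Agent.H914 Pool.Agent.H914.VarClass Pool.Agent.H914.VarClass.Obj Pool.Agent.W492.BB
  Pool.Agent.W550.Corr Pool.Agent.TH133 Pool.Agent.Y148.BB Pool.Agent.TH829.Kim Pool.Agent.Y110

set_option linter.unusedSectionVars false
set_option linter.unusedVariables false

variable {k : Type u} [Field k] {𝒱 : VarClass k} {C : TheoryData.{u, v, 0} 𝒱 ℚ}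
  [hC : IsChowProj C] {K : Type w} [Field K]
  {H : WeilTheoryData.{u, v, w} C K} [hH : IsWeilProj H] {X Y Z W P P' : 𝒱.Obj}

include hC hH

lemma smul_one_eq_zero {q : ℚ} (h : H.cl (q • (1 : C.A X)) = 0) : q = 0 := by
  by_contra hq0
  apply hH.one_ne_zero X
  rw [← map_one H.cl, ← one_smul ℚ (1 : C.A X), ← inv_mul_cancel₀ hq0, mul_smul,
    ← one_mul (q • (1 : C.A X)), ← smul_mul_assoc, map_mul, h, mul_zero]

/-- Homologically trivial zero-cycles have degree zero. -/
lemma hasDegree_zero {x : C.A X} (hx : C.Deg X.dim x) (hcl : H.cl x = 0) : HasDegree C x 0 := by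
  obtain ⟨q, hq⟩ := hC.degree X x hx
  have hq0 : q = 0 := by
    apply smul_one_eq_zero (X := X) (H := H)
    have h1 : C.push (snd X X) (C.pull (fst X X) x) = q • (1 : C.A X) := (hq X).1
    rw [← h1, H.cl_push, H.cl_pull, hcl, map_zero, map_zero]
  subst hq0
  exact hq

/-- **Theorem.** The realisation detects zero Chow motives if and only if phantoms have countable
groups of zero-cycles. -/
theorem cnt_main (hS : BlochSrinivas C) (hI : CountableImage C) :
    List.TFAE [DetectsZero H, NoZeroCycles H, CountableZeroCycles H] := by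
  tfae_have 1 → 3 := by
    intro h X p hp hpp hz
    rw [h X p hp hpp hz]
    refine (Set.countable_singleton (0 : C.A X)).mono ?_
    rintro y ⟨x, _, rfl⟩
    exact TheoryData.act_zero _ _
  tfae_have 3 → 2 := by
    intro h X p hp hpp hz x hx
    have h1 : C.Deg X.dim (C.act p x) := act_mem0 C hp hx
    have h2 : H.cl (C.act p x) = 0 := by
      rw [cl_act]
      exact hz (H.cl x)
    have h4 := hI X p hp (h X p hp hpp hz) _ h1 (hasDegree_zero h1 h2)
    rwa [← C.act_comp, hpp] at h4
  tfae_have 2 → 1 := by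
    intro h X p hp hpp hz
    have h1 : PhantomsKillZeroCycles H := fun X p hp hpp hc x hx =>
      h X p hp hpp (fun a => by rw [hc]; exact TheoryData.act_zero _ _) x hx
    exact noPhantoms_of_zeroCycles H hS h1 hp hpp (hom_zero_of_act H hz)
  tfae_finish

end Pool.Agent.Y148.ZC
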