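import Pool.Agent.TH829.Kim.Defs
import Pool.Agent.Y110.Gc

/-!
# Zero-cycles and the finite-dimensionality of motives: definitions
-/

open CategoryTheory AlgebraicGeometry

universe u v w

namespace Pool.Agent.Y148.ZC

open Pool.Agent.H914 Pool.Agent.H914.VarClass Pool.Agent.H914.VarClass.Obj Pool.Agent.W492.BB
  Pool.Agent.W550.Corr Pool.Agent.TH133 Pool.Agent.TH829.Kim Pool.Agent.Y110

variable {k : Type u} [Field k] {𝒱 : VarClass k} {C : TheoryData.{u, v, 0} 𝒱 ℚ}
  {K : Type w} [Field K]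

/-- The correspondence `Γ ∈ CH^i(X × Y)` is supported over divisors of `X`: it is a sum of
compositions `X ⊢ D_c ⊢ Y` through varieties `D_c` of dimension `dim X - 1` (the desingularizations
of the divisors), where `X ⊢ D_c` is in `CH^(dim X)(X × D_c)` (the restriction to `D_c`) and
`D_c ⊢ Y` is in `CH^(i - 1)(D_c × Y)`. -/
def OverDivisors {X Y : 𝒱.Obj} (i : ℤ) (Γ : C.A (X.prod Y)) : Prop :=
  ∃ (m : ℕ) (D : Fin m → 𝒱.Obj) (α : ∀ c, C.A (X.prod (D c))) (β : ∀ c, C.A ((D c).prod Y)),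
    (∀ c, (D c).dim + 1 = X.dim ∧ C.Deg X.dim (α c) ∧ C.Deg (i - 1) (β c)) ∧
      Γ = ∑ c, C.comp (α c) (β c)

variable (C) in
/-- The theorem of Bloch and Srinivas (over an uncountable algebraically closed field): if for each
zero-cycle `x` on `X` the classes `(Γ_n)_* x` vanish for all large `n`, then one of the
correspondences `Γ_n ∈ CH^i(X × Y)` is supported over divisors of `X`. -/
def BlochSrinivas : Prop :=
  ∀ (X Y : 𝒱.Obj) (i : ℤ) (Γ : ℕ → C.A (X.prod Y)), (∀ n, C.Deg i (Γ n)) →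
    (∀ x : C.A X, C.Deg X.dim x → ∃ n₀, ∀ n, n₀ ≤ n → C.act (Γ n) x = 0) →
      ∃ n, OverDivisors i (Γ n)

/-- The class of `e` is the projector of the cohomology of `X` onto the part of even degree. -/
def IsEvenProjector (H : WeilTheoryData.{u, v, w} C K) {X : 𝒱.Obj} (e : C.A (X.prod X)) : Prop :=
  ∀ (i : ℤ) (a : H.A X), H.Deg i a →
    (Even i → H.act (H.cl e) a = a) ∧ (Odd i → H.act (H.cl e) a = 0)

/-- The sign conjecture: the projector onto the cohomology of even degree is algebraic. -/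
def SignConjecture (H : WeilTheoryData.{u, v, w} C K) : Prop :=
  ∀ X : 𝒱.Obj, ∃ e : C.A (X.prod X), C.Deg X.dim e ∧ IsEvenProjector H e

/-- The projector onto the cohomology of even degree is the class of an idempotent
correspondence. -/
def LiftedSign (H : WeilTheoryData.{u, v, w} C K) : Prop :=
  ∀ X : 𝒱.Obj, ∃ e : C.A (X.prod X), C.Deg X.dim e ∧ C.comp e e = e ∧ IsEvenProjector H e

/-- Homologically trivial self-correspondences `G ∈ CH^(dim X)(X × X)` are nilpotent. -/
def Nilpotence (H : WeilTheoryData.{u, v, w} C K) : Prop :=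
  ∀ (X : 𝒱.Obj) (G : C.A (X.prod X)), C.Deg X.dim G → H.cl G = 0 →
    ∃ n : ℕ, (fun Γ => C.comp Γ G)^[n] G = 0

/-- Homologically trivial self-correspondences `G ∈ CH^(dim X)(X × X)` act locally nilpotently on
zero-cycles: for each zero-cycle `x` on `X` there is an `n` with `(G_*)^n x = 0`. -/
def NilpotentOnZeroCycles (H : WeilTheoryData.{u, v, w} C K) : Prop :=
  ∀ (X : 𝒱.Obj) (G : C.A (X.prod X)), C.Deg X.dim G → H.cl G = 0 →
    ∀ x : C.A X, C.Deg X.dim x → ∃ n : ℕ, (fun y => C.act G y)^[n] x = 0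

/-- Phantoms have no zero-cycles: homologically trivial idempotents `p ∈ CH^(dim X)(X × X)` kill all
zero-cycles on `X`. -/
def PhantomsKillZeroCycles (H : WeilTheoryData.{u, v, w} C K) : Prop :=
  ∀ (X : 𝒱.Obj) (p : C.A (X.prod X)), C.Deg X.dim p → C.comp p p = p → H.cl p = 0 →
    ∀ x : C.A X, C.Deg X.dim x → C.act p x = 0

end Pool.Agent.Y148.ZC
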