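import Pool.Agent.Y148.ZC.Defs
import Pool.Agent.Y148.RV.Emb

/-!
# Finitely many varieties in one
-/

open CategoryTheory AlgebraicGeometry

universe u v w

namespace Pool.Agent.Y148.ZC

open Pool.Agent.H914 Pool.Agent.H914.VarClass Pool.Agent.H914.VarClass.Obj Pool.Agent.W492.BB
  Pool.Agent.W550.Corr Pool.Agent.TH133 Pool.Agent.Y148.BB

set_option linter.unusedSectionVars false
set_option linter.unusedVariables false

variable {k : Type u} [Field k] {𝒱 : VarClass k}

section chow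

variable {C : TheoryData.{u, v, 0} 𝒱 ℚ} [hC : IsChowProj C] {X Y Z W P L M V N R : 𝒱.Obj}

include hC

lemma comp_gr {e e' : ℤ} {Γ : C.A (X.prod Y)} {Δ : C.A (Y.prod Z)} (hΓ : Γ ∈ C.gr (X.prod Y) e)
    (hΔ : Δ ∈ C.gr (Y.prod Z) e') : C.comp Γ Δ ∈ C.gr (X.prod Z) (e + e' - Y.dim) := by
  have h := comp_mem C (e := e - X.dim) (e' := e' - Y.dim) (gr_congr (by ring) hΓ)
    (gr_congr (by ring) hΔ)
  exact gr_congr (by ring) h

lemma tp_wg_comp_wg' (b : N ⟶ Y) (b' : N ⟶ Z) (u v : C.A N) :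
    C.comp (tp C (wg C b u)) (wg C b' v) = C.push (Obj.lift b b') (v * u) := by
  have e1 : Obj.lift b (𝟙 N) ≫ snd Y N = 𝟙 N := lift_snd _ _
  have e2 : Obj.lift b (𝟙 N) ≫ prodMap (𝟙 Y) b' = Obj.lift b b' := by
    apply prod_ext <;> simp
  rw [RV.comp_wg, RV.tp_wg, ← C.proj_left, ← C.push_comp, ← C.pull_comp, e1, e2, C.pull_id]

lemma act_wg {M : 𝒱.Obj} (a : M ⟶ X) (w z : C.A M) :
    C.act (wg C a w) z = C.push a (w * z) := by
  rw [TheoryData.act_apply, wg, ← C.proj_right, ← C.push_comp, ← C.pull_comp, lift_fst, lift_snd,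
    C.pull_id]

/-- The motive of `X` as a part of the motive of `X × P` (covariantly). -/
noncomputable def i1 (oP : C.A P) : C.A (X.prod (X.prod P)) :=
  tp C (wg C (fst X P) (C.pull (snd X P) oP))

/-- The motive of `P` as a part of the motive of `X × P` (covariantly). -/
noncomputable def i2 (oX : C.A X) : C.A (P.prod (X.prod P)) :=
  tp C (wg C (snd X P) (C.pull (fst X P) oX))

omit hC in
variable (C X P) in
/-- The first projection. -/
noncomputable def p1 : C.A ((X.prod P).prod X) := wg C (fst X P) 1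

omit hC in
variable (C X P) in
/-- The second projection. -/
noncomputable def p2 : C.A ((X.prod P).prod P) := wg C (snd X P) 1

variable {oP : C.A P} {oX : C.A X}

lemma i1_mem (h : oP ∈ C.gr P P.dim) : (i1 oP : C.A (X.prod (X.prod P))) ∈
    C.gr (X.prod (X.prod P)) (X.prod P).dim :=
  gr_congr (by rw [dim_prod]; push_cast; ring)
    (tp_mem C (wg_mem (fst X P) (C.pull_mem (snd X P) h)))

lemma i2_mem (h : oX ∈ C.gr X X.dim) : (i2 oX : C.A (P.prod (X.prod P))) ∈
    C.gr (P.prod (X.prod P)) (X.prod P).dim :=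
  gr_congr (by rw [dim_prod]; push_cast; ring)
    (tp_mem C (wg_mem (snd X P) (C.pull_mem (fst X P) h)))

lemma p1_mem : p1 C X P ∈ C.gr ((X.prod P).prod X) X.dim :=
  gr_congr (by ring) (wg_mem (fst X P) (C.one_mem _))

lemma p2_mem : p2 C X P ∈ C.gr ((X.prod P).prod P) P.dim :=
  gr_congr (by ring) (wg_mem (snd X P) (C.one_mem _))

lemma i1_p1 (hd : HasDegree C oP 1) : C.comp (i1 oP) (p1 C X P) = dg C X := by
  rw [i1, p1, RV.tp_wg_comp_wg]
  apply RV.push_lift_self
  rw [one_mul, (hd X).2, one_smul]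

lemma i2_p2 (hd : HasDegree C oX 1) : C.comp (i2 oX) (p2 C X P) = dg C P := by
  rw [i2, p2, RV.tp_wg_comp_wg]
  apply RV.push_lift_self
  rw [one_mul, (hd P).1, one_smul]

lemma i1_p2 : C.comp (i1 oP) (p2 C X P) = C.ext (1 : C.A X) oP := by
  have e1 : Obj.lift (fst X P) (snd X P) = 𝟙 (X.prod P) := by
    apply prod_ext <;> simp
  rw [i1, p2, tp_wg_comp_wg', e1, C.push_id, TheoryData.ext, map_one]

lemma i2_p1 : C.comp (i2 oX) (p1 C X P) = C.ext (1 : C.A P) oX := by
  have e1 : Obj.lift (snd X P) (fst X P) = sw X P := rfl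
  rw [i2, p1, tp_wg_comp_wg', e1, one_mul, ← tp_ext, tp_eq_push, TheoryData.ext, map_one, mul_one]

lemma tp_i1_one (hd : HasDegree C oP 1) : C.act (tp C (i1 oP)) (1 : C.A (X.prod P)) = 1 := by
  rw [i1, tp_tp, act_wg, mul_one, (hd X).2, one_smul]

lemma tp_i2_one (hd : HasDegree C oX 1) : C.act (tp C (i2 oX)) (1 : C.A (X.prod P)) = 1 := by
  rw [i2, tp_tp, act_wg, mul_one, (hd P).1, one_smul]

omit hC in
/-- The varieties `D a` as parts of one variety `P`. -/
structure IsHull {m : ℕ} (D : Fin m → 𝒱.Obj) (P : 𝒱.Obj) (ι : ∀ a, C.A ((D a).prod P))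
    (π : ∀ a, C.A (P.prod (D a))) : Prop where
  ι_mem : ∀ a, ι a ∈ C.gr ((D a).prod P) P.dim
  π_mem : ∀ a, π a ∈ C.gr (P.prod (D a)) (D a).dim
  one : ∀ a, ∃ q : ℚ, C.act (tp C (ι a)) 1 = q • (1 : C.A (D a))
  same : ∀ (a : Fin m) (W : 𝒱.Obj) (N : C.A (W.prod (D a))), C.comp N (C.comp (ι a) (π a)) = N
  ne : ∀ (a b : Fin m), a ≠ b → ∀ (W : 𝒱.Obj) (N : C.A (W.prod (D a))), C.act (tp C N) 1 = 0 →
    C.comp N (C.comp (ι a) (π b)) = 0

variable (C) in
lemma exists_hull (Z : 𝒱.Obj) : ∀ (m : ℕ) (D : Fin m → 𝒱.Obj), ∃ (P : 𝒱.Obj)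
    (ι : ∀ a, C.A ((D a).prod P)) (π : ∀ a, C.A (P.prod (D a))), IsHull D P ι π := by
  intro m
  induction m with
  | zero =>
    intro D
    exact ⟨Z, fun a => a.elim0, fun a => a.elim0, ⟨fun a => a.elim0, fun a => a.elim0,
      fun a => a.elim0, fun a => a.elim0, fun a => a.elim0⟩⟩
  | succ m ih =>
    intro D
    obtain ⟨P, ι, π, h⟩ := ih fun a => D a.succ
    obtain ⟨oP, hoP, hdP⟩ := RV.exists_hasDegree_one (C := C) P
    obtain ⟨oX, hoX, hdX⟩ := RV.exists_hasDegree_one (C := C) (D 0)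
    refine ⟨(D 0).prod P, fun a => Fin.cases (motive := fun a => C.A ((D a).prod ((D 0).prod P)))
      (i1 oP) (fun a => C.comp (ι a) (i2 oX)) a,
      fun a => Fin.cases (motive := fun a => C.A (((D 0).prod P).prod (D a)))
      (p1 C (D 0) P) (fun a => C.comp (p2 C (D 0) P) (π a)) a, ⟨?_, ?_, ?_, ?_, ?_⟩⟩
    · intro a
      refine Fin.cases ?_ (fun a => ?_) a
      · exact i1_mem hoP
      · exact gr_congr (by ring) (comp_gr (h.ι_mem a) (i2_mem hoX))
    · intro a
      refine Fin.cases ?_ (fun a => ?_) a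
      · exact p1_mem
      · exact gr_congr (by ring) (comp_gr p2_mem (h.π_mem a))
    · intro a
      refine Fin.cases ?_ (fun a => ?_) a
      · exact ⟨1, by rw [one_smul]; exact tp_i1_one hdP⟩
      · obtain ⟨q, hq⟩ := h.one a
        refine ⟨q, ?_⟩
        change C.act (tp C (C.comp (ι a) (i2 oX))) 1 = _
        rw [tp_comp C (ch_comm C), C.act_comp, tp_i2_one hdX, hq]
    · intro a
      refine Fin.cases ?_ (fun a => ?_) a
      · intro W N
        change C.comp N (C.comp (i1 oP) (p1 C (D 0) P)) = N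
        rw [i1_p1 hdP, comp_dg]
      · intro W N
        change C.comp N (C.comp (C.comp (ι a) (i2 oX)) (C.comp (p2 C (D 0) P) (π a))) = N
        rw [comp_assoc C (ι a), ← comp_assoc C (i2 oX), i2_p2 hdX, dg_comp]
        exact h.same a W N
    · intro a b
      refine Fin.cases ?_ (fun a => ?_) a
      · refine Fin.cases ?_ (fun b => ?_) b
        · intro hab
          exact absurd rfl hab
        · intro _ W N hN
          change C.comp N (C.comp (i1 oP) (C.comp (p2 C (D 0) P) (π b))) = 0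
          rw [← comp_assoc C (i1 oP), i1_p2, ← comp_assoc C N, comp_ext, hN,
            TheoryData.ext_zero_left, zero_comp]
      · refine Fin.cases ?_ (fun b => ?_) b
        · intro _ W N hN
          obtain ⟨q, hq⟩ := h.one a
          change C.comp N (C.comp (C.comp (ι a) (i2 oX)) (p1 C (D 0) P)) = 0
          rw [comp_assoc C (ι a), i2_p1, ← comp_assoc C N, comp_ext, tp_comp C (ch_comm C),
            C.act_comp, hq, act_map_smul, hN, smul_zero, TheoryData.ext_zero_left]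
        · intro hab W N hN
          change C.comp N (C.comp (C.comp (ι a) (i2 oX)) (C.comp (p2 C (D 0) P) (π b))) = 0
          rw [comp_assoc C (ι a), ← comp_assoc C (i2 oX), i2_p2 hdX, dg_comp]
          exact h.ne a b (fun h' => hab (by rw [h'])) W N hN

end chow

end Pool.Agent.Y148.ZC
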