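import Pool.Agent.Y148.ZC.Hull

/-!
# Correspondences which act nilpotently on zero-cycles
-/

open CategoryTheory AlgebraicGeometry

universe u v w

namespace Pool.Agent.Y148.ZC

open Pool.Agent.H914 Pool.Agent.H914.VarClass Pool.Agent.H914.VarClass.Obj Pool.Agent.W492.BB
  Pool.Agent.W550.Corr Pool.Agent.TH133 Pool.Agent.Y148.BB

set_option linter.unusedSectionVars false
set_option linter.unusedVariables false

variable {k : Type u} [Field k] {𝒱 : VarClass k}

section chow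

variable {C : TheoryData.{u, v, 0} 𝒱 ℚ} [hC : IsChowProj C] {X Y Z W P P' L M V N R : 𝒱.Obj}

include hC

omit hC in
variable (C) in
/-- The `n`-th power of a self-correspondence. -/
noncomputable def pw (G : C.A (X.prod X)) : ℕ → C.A (X.prod X)
  | 0 => dg C X
  | n + 1 => C.comp G (pw G n)

omit hC in
lemma pw_zero (G : C.A (X.prod X)) : pw C G 0 = dg C X := rfl

omit hC in
lemma pw_succ (G : C.A (X.prod X)) (n : ℕ) : pw C G (n + 1) = C.comp G (pw C G n) := rfl

lemma pw_succ' (G : C.A (X.prod X)) (n : ℕ) : pw C G (n + 1) = C.comp (pw C G n) G := by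
  induction n with
  | zero => rw [pw_succ, pw_zero, comp_dg, dg_comp]
  | succ n ih =>
    rw [pw_succ G (n + 1)]
    conv_lhs => rw [ih]
    rw [← comp_assoc C]
    rfl

lemma pw_add (G : C.A (X.prod X)) (m n : ℕ) : pw C G (m + n) = C.comp (pw C G n) (pw C G m) := by
  induction n with
  | zero => rw [pw_zero, dg_comp, add_zero]
  | succ n ih => rw [← add_assoc, pw_succ, ih, ← comp_assoc C, ← pw_succ]

lemma pw_pw (G : C.A (X.prod X)) (m n : ℕ) : pw C (pw C G m) n = pw C G (m * n) := by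
  induction n with
  | zero => rw [pw_zero, mul_zero, pw_zero]
  | succ n ih => rw [pw_succ, ih, mul_add, mul_one, pw_add]

lemma pw_mem {G : C.A (X.prod X)} (hG : G ∈ C.gr (X.prod X) X.dim) (n : ℕ) :
    pw C G n ∈ C.gr (X.prod X) X.dim := by
  induction n with
  | zero => exact dg_mem C X
  | succ n ih =>
    rw [pw_succ]
    exact comp_mem0 C hG ih

lemma act_pw (G : C.A (X.prod X)) (n : ℕ) (x : C.A X) :
    C.act (pw C G n) x = (fun y => C.act G y)^[n] x := by
  induction n generalizing x with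
  | zero => exact act_dg C x
  | succ n ih => rw [pw_succ, C.act_comp, ih, Function.iterate_succ_apply]

/-- The self-correspondence `G` of `P` passes through varieties of given dimensions. -/
def Thr (C : TheoryData.{u, v, 0} 𝒱 ℚ) (Q : ℕ → Prop) (P : 𝒱.Obj) (G : C.A (P.prod P)) : Prop :=
  ∃ (m : ℕ) (D : Fin m → 𝒱.Obj) (α : ∀ a, C.A (P.prod (D a))) (β : ∀ a, C.A ((D a).prod P))
    (s : ℤ), (∀ a, Q (D a).dim ∧ α a ∈ C.gr (P.prod (D a)) ((D a).dim + s) ∧
      β a ∈ C.gr ((D a).prod P) (P.dim - s)) ∧ G = ∑ a, C.comp (α a) (β a)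

omit hC in
lemma Thr.of_fintype {J : Type} [Fintype J] {Q : ℕ → Prop} {G : C.A (P.prod P)} (D : J → 𝒱.Obj)
    (α : ∀ a, C.A (P.prod (D a))) (β : ∀ a, C.A ((D a).prod P)) (s : ℤ)
    (h : ∀ a, Q (D a).dim ∧ α a ∈ C.gr (P.prod (D a)) ((D a).dim + s) ∧
      β a ∈ C.gr ((D a).prod P) (P.dim - s)) (hG : G = ∑ a, C.comp (α a) (β a)) :
    Thr C Q P G := by
  classical
  let e := Fintype.equivFin J
  refine ⟨Fintype.card J, fun a => D (e.symm a), fun a => α (e.symm a), fun a => β (e.symm a), s,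
    fun a => h _, ?_⟩
  rw [hG]
  exact (Equiv.sum_comp e.symm fun a => C.comp (α a) (β a)).symm

lemma OverDivisors.comp {i e : ℤ} {Γ : C.A (X.prod Y)} (h : OverDivisors i Γ)
    {Δ : C.A (Y.prod Z)} (hΔ : Δ ∈ C.gr (Y.prod Z) e) :
    OverDivisors (i + e - Y.dim) (C.comp Γ Δ) := by
  obtain ⟨m, D, α, β, h1, rfl⟩ := h
  refine ⟨m, D, α, fun c => C.comp (β c) Δ, fun c => ⟨(h1 c).1, (h1 c).2.1, ?_⟩, ?_⟩
  · exact gr_congr (by ring) (comp_gr (h1 c).2.2 hΔ)
  · rw [sum_comp]
    exact Finset.sum_congr rfl fun c _ => comp_assoc C _ _ _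

lemma OverDivisors.pow {Γ : C.A (X.prod Y)} (h : OverDivisors Y.dim Γ) {G : C.A (Y.prod Y)}
    (hG : G ∈ C.gr (Y.prod Y) Y.dim) (n : ℕ) : OverDivisors Y.dim (C.comp Γ (pw C G n)) := by
  have h1 := h.comp (pw_mem hG n)
  rwa [add_sub_cancel_right] at h1

end chow

section weil

variable {C : TheoryData.{u, v, 0} 𝒱 ℚ} [hC : IsChowProj C] {K : Type w} [Field K]
  {H : WeilTheoryData.{u, v, w} C K} [hH : IsWeilProj H] {X Y Z W P P' : 𝒱.Obj}

include hC hH

/-- Homologically trivial correspondences of degree zero annihilate the fundamental class. -/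
lemma tp_one {N : C.A (X.prod Y)} (hN : N ∈ C.gr (X.prod Y) Y.dim) (hcl : H.cl N = 0) :
    C.act (tp C N) 1 = 0 := by
  have h1 : C.act (tp C N) 1 ∈ C.gr X (0 + 0) :=
    act_mem' C (gr_congr (by ring) (tp_mem C hN)) (C.one_mem Y)
  obtain ⟨q, hq⟩ := hC.gr_zero X _ (gr_congr (by ring) h1)
  have h2 : H.cl (C.act (tp C N) 1) = 0 := by
    rw [TheoryData.act_apply, H.cl_push, map_mul, tp, H.cl_pull, hcl, map_zero, zero_mul, map_zero]
  rw [hq]
  by_contra hne
  have hq0 : q ≠ 0 := fun h => hne (by rw [h, zero_smul])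
  apply hH.one_ne_zero X
  rw [← map_one H.cl, ← one_smul ℚ (1 : C.A X), ← inv_mul_cancel₀ hq0, mul_smul, ← hq,
    ← one_mul (C.act (tp C N) 1), ← smul_mul_assoc, map_mul, h2, mul_zero]

variable (H) in
/-- A class of homologically trivial self-correspondences which is closed under powers and the
construction below. -/
structure Closed (𝒢 : ∀ X : 𝒱.Obj, C.A (X.prod X) → Prop) : Prop where
  mem : ∀ {X : 𝒱.Obj} {G : C.A (X.prod X)}, 𝒢 X G → G ∈ C.gr (X.prod X) X.dim
  cl : ∀ {X : 𝒱.Obj} {G : C.A (X.prod X)}, 𝒢 X G → H.cl G = 0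
  pow : ∀ {X : 𝒱.Obj} {G : C.A (X.prod X)}, 𝒢 X G → ∀ n, 𝒢 X (pw C G (n + 1))
  hull : ∀ {P P' : 𝒱.Obj} {G : C.A (P.prod P)} {A : C.A (P.prod P')} {B : C.A (P'.prod P)},
    𝒢 P G → C.comp (C.comp (C.comp G G) A) B = C.comp (C.comp G G) G →
    C.comp B (C.comp G A) ∈ C.gr (P'.prod P') P'.dim → 𝒢 P' (C.comp B (C.comp G A))

lemma step {𝒢 : ∀ X : 𝒱.Obj, C.A (X.prod X) → Prop} (h : Closed H 𝒢) (hS : BlochSrinivas C)
    (hz : ∀ (X : 𝒱.Obj) (G : C.A (X.prod X)), 𝒢 X G → ∀ x : C.A X, C.Deg X.dim x →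
      ∃ n : ℕ, (fun y => C.act G y)^[n] x = 0) {d : ℕ} {G : C.A (P.prod P)} (hG : 𝒢 P G)
    (hT : Thr C (fun e => e = d) P G) : ∃ (P' : 𝒱.Obj) (G' : C.A (P'.prod P')), 𝒢 P' G' ∧
      (∃ n, Thr C (fun e => e + 1 = d) P' (pw C G' (n + 1))) ∧
      ∀ n, pw C G' n = 0 → pw C G (2 * n + 3) = 0 := by
  obtain ⟨m, D, α, β, s, hD, hsum⟩ := hT
  obtain ⟨P', ι, π, hP⟩ := exists_hull C P m D
  obtain ⟨A, hA⟩ : ∃ A : C.A (P.prod P'), A = ∑ a, C.comp (α a) (ι a) := ⟨_, rfl⟩
  obtain ⟨B, hB⟩ : ∃ B : C.A (P'.prod P), B = ∑ b, C.comp (π b) (β b) := ⟨_, rfl⟩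
  have hGm := h.mem hG
  have hGc := h.cl hG
  have hBm : B ∈ C.gr (P'.prod P) (P.dim - s) := by
    rw [hB]
    exact Submodule.sum_mem _ fun b _ => gr_congr (by ring) (comp_gr (hP.π_mem b) (hD b).2.2)
  -- the key relation
  have hkey : C.comp (C.comp (C.comp G G) A) B = C.comp (C.comp G G) G := by
    have hN : ∀ a c, C.act (tp C (C.comp (β c) (C.comp G (α a)))) 1 = 0 := by
      intro a c
      have h1 : C.comp (β c) (C.comp G (α a)) ∈ C.gr ((D c).prod (D a)) (D a).dim :=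
        gr_congr (by ring) (comp_gr (hD c).2.2 (comp_gr hGm (hD a).2.1))
      refine tp_one (H := H) h1 ?_
      rw [cl_comp, cl_comp, hGc, zero_comp, comp_zero]
    have hGG : ∀ a, C.comp (C.comp G G) (α a) =
        ∑ c, C.comp (α c) (C.comp (β c) (C.comp G (α a))) := by
      intro a
      calc C.comp (C.comp G G) (α a) = C.comp G (C.comp G (α a)) := comp_assoc C _ _ _
        _ = C.comp (∑ c, C.comp (α c) (β c)) (C.comp G (α a)) := by rw [← hsum]
        _ = _ := by
          rw [sum_comp]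
          exact Finset.sum_congr rfl fun c _ => comp_assoc C _ _ _
    have hR : C.comp (C.comp G G) G = ∑ a, C.comp (C.comp G G) (C.comp (α a) (β a)) := by
      calc C.comp (C.comp G G) G = C.comp (C.comp G G) (∑ a, C.comp (α a) (β a)) := by
            rw [← hsum]
        _ = _ := comp_sum C _ _ _
    rw [hR, hA, comp_sum, sum_comp]
    refine Finset.sum_congr rfl fun a _ => ?_
    rw [hB, comp_sum, Finset.sum_eq_single a]
    · rw [← comp_assoc C (C.comp G G), comp_assoc C _ (ι a), ← comp_assoc C (ι a),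
        ← comp_assoc C (C.comp (C.comp G G) (α a)), hP.same, comp_assoc C]
    · intro b _ hb
      rw [← comp_assoc C (C.comp G G), comp_assoc C _ (ι a), ← comp_assoc C (ι a),
        ← comp_assoc C (C.comp (C.comp G G) (α a)), hGG, sum_comp]
      have h0 : ∀ c, C.comp (C.comp (α c) (C.comp (β c) (C.comp G (α a))))
          (C.comp (ι a) (π b)) = 0 := by
        intro c
        rw [comp_assoc C (α c), hP.ne a b (Ne.symm hb) _ _ (hN a c), comp_zero]
      rw [Finset.sum_eq_zero fun c _ => h0 c, zero_comp]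
    · intro ha
      exact absurd (Finset.mem_univ a) ha
  obtain ⟨G', hG'⟩ : ∃ G' : C.A (P'.prod P'), G' = C.comp B (C.comp G A) := ⟨_, rfl⟩
  have hN : G' = ∑ b, C.comp (C.comp B (C.comp G (α b))) (ι b) := by
    rw [hG', hA, comp_sum, comp_sum]
    refine Finset.sum_congr rfl fun b _ => ?_
    rw [comp_assoc C, comp_assoc C]
  have hNm : ∀ b, C.comp B (C.comp G (α b)) ∈ C.gr (P'.prod (D b)) (D b).dim := fun b =>
    gr_congr (by ring) (comp_gr hBm (comp_gr hGm (hD b).2.1))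
  have hG'm : G' ∈ C.gr (P'.prod P') P'.dim := by
    rw [hN]
    exact Submodule.sum_mem _ fun b _ => gr_congr (by ring) (comp_gr (hNm b) (hP.ι_mem b))
  have hG'g : 𝒢 P' G' := by
    rw [hG'] at hG'm ⊢
    exact h.hull hG hkey hG'm
  refine ⟨P', G', hG'g, ?_, ?_⟩
  · have h1 : ∀ b, ∃ n, OverDivisors P'.dim (C.comp (ι b) (pw C G' n)) := by
      intro b
      refine hS (D b) P' P'.dim (fun n => C.comp (ι b) (pw C G' n)) (fun n => ?_) fun x hx => ?_
      · exact gr_congr (by ring) (comp_gr (hP.ι_mem b) (pw_mem hG'm n))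
      · have h2 : C.act (ι b) x ∈ C.gr P' P'.dim :=
          gr_congr (by ring) (act_mem' C (e := P'.dim - (D b).dim)
            (gr_congr (by ring) (hP.ι_mem b)) hx)
        obtain ⟨n₀, hn₀⟩ := hz P' G' hG'g _ h2
        refine ⟨n₀, fun n hn => ?_⟩
        obtain ⟨j, rfl⟩ := Nat.exists_eq_add_of_le' hn
        rw [C.act_comp, act_pw, Function.iterate_add_apply, hn₀, ← act_pw,
          TheoryData.act_map_zero]
    choose n hn using h1
    set N := ∑ b, n b with hNdef
    have h2 : ∀ b, OverDivisors P'.dim (C.comp (ι b) (pw C G' N)) := by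
      intro b
      have h3 : n b ≤ N := Finset.single_le_sum (fun _ _ => Nat.zero_le _) (Finset.mem_univ b)
      obtain ⟨j, hj⟩ := Nat.exists_eq_add_of_le' h3
      rw [hj, pw_add, ← comp_assoc C]
      exact (hn b).pow hG'm j
    choose mm E α' β' hE hE' using h2
    refine ⟨N, Thr.of_fintype (J := Σ b, Fin (mm b)) (fun c => E c.1 c.2)
      (fun c => C.comp (C.comp B (C.comp G (α c.1))) (α' c.1 c.2)) (fun c => β' c.1 c.2) 1
      (fun c => ⟨?_, ?_, ?_⟩) ?_⟩
    · rw [(hE c.1 c.2).1, (hD c.1).1]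
    · have h3 := comp_gr (hNm c.1) (hE c.1 c.2).2.1
      have h4 := (hE c.1 c.2).1
      exact gr_congr (by push_cast [← h4]; ring) h3
    · exact (hE c.1 c.2).2.2
    · rw [pw_succ]
      conv_lhs => rw [hN]
      rw [sum_comp, Fintype.sum_sigma]
      refine Finset.sum_congr rfl fun b _ => ?_
      rw [comp_assoc C, ← hN, hE' b, comp_sum]
      exact Finset.sum_congr rfl fun c _ => (comp_assoc C _ _ _).symm
  · intro n hn
    have h1 : ∀ n, C.comp (C.comp (C.comp (C.comp G G) A) (pw C G' n)) B =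
        pw C G (2 * n + 3) := by
      intro n
      induction n with
      | zero =>
        rw [pw_zero, comp_dg, hkey, mul_zero, zero_add, pw_succ', pw_succ', pw_succ', pw_zero,
          dg_comp]
      | succ n ih =>
        have h2 : C.comp (C.comp (C.comp G G) A) G' =
            C.comp (C.comp G G) (C.comp (C.comp G G) A) := by
          rw [hG', ← comp_assoc C, hkey, comp_assoc C (C.comp G G), ← comp_assoc C G G A]
        have e1 : 2 * (n + 1) + 3 = 2 * n + 3 + 1 + 1 := by ring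
        rw [pw_succ, ← comp_assoc C, h2, e1, pw_succ, pw_succ, ← ih]
        simp only [comp_assoc C]
    rw [← h1, hn, comp_zero, zero_comp]

/-- The main theorem: if the self-correspondences in `𝒢` are locally nilpotent on zero-cycles, then
they are nilpotent. -/
theorem exists_pw_eq_zero {𝒢 : ∀ X : 𝒱.Obj, C.A (X.prod X) → Prop} (h : Closed H 𝒢)
    (hS : BlochSrinivas C)
    (hz : ∀ (X : 𝒱.Obj) (G : C.A (X.prod X)), 𝒢 X G → ∀ x : C.A X, C.Deg X.dim x →
      ∃ n : ℕ, (fun y => C.act G y)^[n] x = 0) {X : 𝒱.Obj} {G : C.A (X.prod X)} (hG : 𝒢 X G) :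
    ∃ n, pw C G n = 0 := by
  have key : ∀ (d : ℕ) (P : 𝒱.Obj) (G : C.A (P.prod P)), 𝒢 P G →
      Thr C (fun e => e = d) P G → ∃ n, pw C G n = 0 := by
    intro d
    induction d with
    | zero =>
      intro P G hG hT
      obtain ⟨P', G', hG', ⟨n, m, D, α, β, s, hD, hsum⟩, h3⟩ := step h hS hz hG hT
      have hm : m = 0 := by
        by_contra hm
        have := (hD ⟨0, Nat.pos_of_ne_zero hm⟩).1
        simp at this
      subst hm
      rw [Finset.univ_eq_empty, Finset.sum_empty] at hsum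
      exact ⟨_, h3 _ hsum⟩
    | succ d ih =>
      intro P G hG hT
      obtain ⟨P', G', hG', ⟨n, hn⟩, h3⟩ := step h hS hz hG hT
      obtain ⟨m, hm⟩ := ih P' _ (h.pow hG' n) (by
        obtain ⟨m, D, α, β, s, hD, hsum⟩ := hn
        exact ⟨m, D, α, β, s, fun a => ⟨Nat.succ_injective (hD a).1, (hD a).2⟩, hsum⟩)
      rw [pw_pw] at hm
      exact ⟨_, h3 _ hm⟩
  refine key X.dim X G hG ⟨1, fun _ => X, fun _ => dg C X, fun _ => G, 0, fun a => ⟨rfl, ?_, ?_⟩,
    ?_⟩
  · rw [add_zero]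
    exact dg_mem C X
  · rw [sub_zero]
    exact h.mem hG
  · rw [Finset.sum_const, Finset.card_univ, Fintype.card_fin, one_smul, dg_comp]

end weil

end Pool.Agent.Y148.ZC
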