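import Pool.Agent.Y148.SS.Lang

/-!
# Murre's conjecture (C) and countability: definitions
-/

open CategoryTheory AlgebraicGeometry

universe u v w

namespace Pool.Agent.Y148.ZC

open Pool.Agent.H914 Pool.Agent.H914.VarClass Pool.Agent.H914.VarClass.Obj Pool.Agent.W492.BB
  Pool.Agent.TH133 Pool.Agent.Y148.BS Pool.Agent.Y148.SS

variable {k : Type u} [Field k] {𝒱 : VarClass k} (C : TheoryData.{u, v, 0} 𝒱 ℚ)

/-- A fact over every uncountable algebraically closed field: if `T` is a curve, `Γ ∈ CH^i(T × X)` and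
if the classes `Γ_* x`, `x` a zero-cycle on `T`, form a countable set, then `Γ_* ξ = 0` for all
zero-cycles `ξ` of degree zero on `T`. -/
def CountableFamilies : Prop :=
  ∀ (T X : 𝒱.Obj) (i : ℤ) (Γ : C.A (T.prod X)), T.dim = 1 → C.Deg i Γ →
    Set.Countable {y : C.A X | ∃ x : C.A T, C.Deg 1 x ∧ y = C.act Γ x} →
    ∀ ξ : C.A T, C.Deg 1 ξ → HasDegree C ξ 0 → C.act Γ ξ = 0

/-- A fact over every algebraically closed field: the group of cycles modulo algebraic equivalence is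
countable: there is a countable set `S` of classes such that each `z ∈ CH^i(X)` is the sum of an
element of `S` and of classes `Γ_* ξ`, `ξ` of degree zero on a curve `T` and `Γ ∈ CH^i(T × X)`. -/
def CountableModuloAlgebraic : Prop :=
  ∀ (X : 𝒱.Obj) (i : ℕ), ∃ S : Set (C.A X), S.Countable ∧ ∀ z : C.A X, C.Deg i z →
    ∃ s ∈ S, ∃ (m : ℕ) (T : Fin m → 𝒱.Obj) (Γ : ∀ c, C.A ((T c).prod X)) (ξ : ∀ c, C.A (T c)),
      (∀ c, (T c).dim = 1 ∧ C.Deg i (Γ c) ∧ C.Deg 1 (ξ c) ∧ HasDegree C (ξ c) 0) ∧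
        z = s + ∑ c, C.act (Γ c) (ξ c)

variable {C} {K : Type w} [Field K]

/-- Murre's conjecture (C) for all varieties: the steps `F^ν CH^j(X)` do not depend on the
Chow-Kunneth decomposition. -/
def MurreCAll (H : WeilTheoryData.{u, v, w} C K) : Prop :=
  ∀ (X : 𝒱.Obj) (π π' : ℕ → C.A (X.prod X)), IsChowKunneth H π → IsChowKunneth H π' →
    ∀ (j ν : ℕ) (z : C.A X), InStep π j ν z ↔ InStep π' j ν z

/-- For all varieties and all Chow-Kunneth decompositions the groups `CH^i(h^j(X)) = (π_j)_* CH^i(X)`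
with `j ≥ 2 i` are countable. -/
def CountablePieces (H : WeilTheoryData.{u, v, w} C K) : Prop :=
  ∀ (X : 𝒱.Obj) (π : ℕ → C.A (X.prod X)), IsChowKunneth H π → ∀ i j : ℕ, 2 * i ≤ j →
    Set.Countable {y : C.A X | ∃ z : C.A X, C.Deg i z ∧ y = C.act (π j) z}

end Pool.Agent.Y148.ZC
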