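import Pool.Agent.Y148.KP.TranslateAlg
import Pool.Agent.Y148.ZC.Cnt
import Pool.Agent.Y148.ZC.PieDefs
import Pool.Agent.Y148.KL.Lef2

/-!
# Murre's conjecture (C) and countability
-/

open CategoryTheory AlgebraicGeometry

universe u v w

namespace Pool.Agent.Y148.ZC

open Pool.Agent.H914 Pool.Agent.H914.VarClass Pool.Agent.H914.VarClass.Obj Pool.Agent.W492.BB
  Pool.Agent.W550.Corr Pool.Agent.TH133 Pool.Agent.Y148 Pool.Agent.Y148.BS Pool.Agent.Y148.SS
  Pool.Agent.Y148.KL Pool.Agent.Y148.KP Pool.Agent.Y110 Pool.Agent.Y148.BB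

set_option linter.unusedSectionVars false
set_option linter.unusedVariables false

variable {k : Type u} [Field k] {𝒱 : VarClass k} {C : TheoryData.{u, v, 0} 𝒱 ℚ}
  [hC : IsChowProj C] {K : Type w} [Field K]
  {H : WeilTheoryData.{u, v, w} C K} [hH : IsWeilProj H]

include hC hH

/-- **Theorem.** Murre's conjecture (C) and the size of the pieces. -/
theorem pieces_iff (hF : BS.FibreProperty C) (hI : CountableFamilies C)
    (hA : CountableModuloAlgebraic C) {E : 𝒱.Obj} {o : C.A E} (hE : E.dim = 1)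
    (ho : IsDegreeOne C o)
    (hg : ¬ IsHomTrivial H (C.up (Obj.lift (𝟙 E) (𝟙 E)) (oddPart C o))) :
    MurreCAll H ↔ CountablePieces H := by
  have h12 := (KP.algebraic (H := H) hF hE ho hg).out 0 1
  constructor
  · intro h X π hπ i j hj
    have h2 := h12.1 h
    have hπ' := KL.isChowKunneth_iff.1 hπ
    obtain ⟨S, hS, hS'⟩ := hA X i
    refine (hS.image fun s => C.act (π j) s).mono ?_
    rintro y ⟨z, hz, rfl⟩
    obtain ⟨s, hs, m, T, Γ, ξ, hT, hzs⟩ := hS' z hz
    refine ⟨s, hs, ?_⟩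
    have h3 : ∀ c, C.act (π j) (C.act (Γ c) (ξ c)) = 0 := by
      intro c
      obtain ⟨hT1, hΓ, hξ, hd⟩ := hT c
      have hcl : H.cl (ξ c) = 0 :=
        Pool.Agent.Y148.KL.cl_eq_zero_of_hasDegree H (by
          have h4 : ((T c).dim : ℤ) = 1 := by exact_mod_cast hT1
          rw [h4]
          exact hξ) hd
      have h4 := h2 X π hπ i (T c) hT1 (Γ c) (ξ c) hΓ hξ hcl
      rw [KP.inStep_iff_fil hπ', mem_fil hπ'] at h4
      exact h4.2 j (by push_cast; omega)
    change C.act (π j) s = C.act (π j) z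
    rw [hzs, act_map_add, act_map_sum, Finset.sum_eq_zero fun c _ => h3 c, add_zero]
  · intro h
    refine h12.2 fun X π hπ i T hT Γ ξ hΓ hξ hξ0 => ?_
    have hπ' := KL.isChowKunneth_iff.1 hπ
    rw [KP.inStep_iff_fil hπ', mem_fil hπ']
    have hT' : (T.dim : ℤ) = 1 := by exact_mod_cast hT
    have hd : HasDegree C ξ 0 := hasDegree_zero (H := H) (by
      rw [hT']
      exact hξ) hξ0
    have hmem : ∀ x : C.A T, C.Deg 1 x → C.act Γ x ∈ C.gr X i := by
      intro x hx
      have h3 := act_mem' C (e := (i : ℤ) - 1) (Γ := Γ) (i := 1) (x := x)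
        (gr_congr (by rw [hT']; ring) hΓ) hx
      exact gr_congr (by ring) h3
    refine ⟨hmem ξ hξ, fun j hj => ?_⟩
    rw [← C.act_comp]
    refine hI T X i (C.comp Γ (π j)) hT (gr_congr (by ring) (comp_gr hΓ (hπ'.deg j))) ?_ ξ hξ hd
    refine (h X π hπ i j (by push_cast at hj; omega)).mono ?_
    rintro y ⟨x, hx, rfl⟩
    exact ⟨C.act Γ x, hmem x hx, C.act_comp _ _ _⟩

end Pool.Agent.Y148.ZC
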