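import Pool.Agent.Y148.ZC.Defs

/-!
# Zero-cycles and conservativity: definitions
-/

open CategoryTheory AlgebraicGeometry

universe u v w

namespace Pool.Agent.Y148.ZC

open Pool.Agent.H914 Pool.Agent.H914.VarClass Pool.Agent.H914.VarClass.Obj Pool.Agent.W492.BB
  Pool.Agent.W550.Corr Pool.Agent.TH133

variable {k : Type u} [Field k] {𝒱 : VarClass k} {C : TheoryData.{u, v, 0} 𝒱 ℚ}
  {K : Type w} [Field K]

variable (C) in
/-- The theorem of Bloch and Srinivas in a more general form (over an uncountable algebraically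
closed field): let `J ∈ CH^(dim Z)(X × Z)` and `Γ ∈ CH^(dim Z)(Y × Z)`, so that `J` and `Γ` map
zero-cycles to zero-cycles. If for each zero-cycle `x` on `X` there is a zero-cycle `y` on `Y` with
`Γ_* y = J_* x`, then there is a `Φ ∈ CH^(dim Y)(X × Y)` such that `J - Γ ∘ Φ` is supported over
divisors of `X`. -/
def PointwiseFactorization : Prop :=
  ∀ (X Y Z : 𝒱.Obj) (J : C.A (X.prod Z)) (Γ : C.A (Y.prod Z)), C.Deg Z.dim J → C.Deg Z.dim Γ →
    (∀ x : C.A X, C.Deg X.dim x → ∃ y : C.A Y, C.Deg Y.dim y ∧ C.act Γ y = C.act J x) →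
      ∃ Φ : C.A (X.prod Y), C.Deg Y.dim Φ ∧ OverDivisors Z.dim (J - C.comp Φ Γ)

/-- The realisation is conservative on endomorphisms of Chow motives: an endomorphism `G` of a motive
`(X, p)` (`p` an idempotent in `CH^(dim X)(X × X)`, `G = p ∘ G ∘ p` in the same group) which acts
injectively on the cohomology of `(X, p)`, the image of `p` in `H(X)`, is invertible. -/
def Conservative (H : WeilTheoryData.{u, v, w} C K) : Prop :=
  ∀ (X : 𝒱.Obj) (p G : C.A (X.prod X)), C.Deg X.dim p → C.comp p p = p → C.Deg X.dim G →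
    C.comp p G = G → C.comp G p = G →
    (∀ a : H.A X, H.act (H.cl p) a = a → H.act (H.cl G) a = 0 → a = 0) →
    ∃ G' : C.A (X.prod X), C.Deg X.dim G' ∧ C.comp p G' = G' ∧ C.comp G' p = G' ∧
      C.comp G G' = p ∧ C.comp G' G = p

/-- Self-correspondences `G ∈ CH^(dim X)(X × X)` which act as the identity on the cohomology of `X`
are invertible. -/
def UnipotentInvertible (H : WeilTheoryData.{u, v, w} C K) : Prop :=
  ∀ (X : 𝒱.Obj) (G : C.A (X.prod X)), C.Deg X.dim G → (∀ a : H.A X, H.act (H.cl G) a = a) →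
    ∃ G' : C.A (X.prod X), C.Deg X.dim G' ∧ C.comp G G' = dg C X ∧ C.comp G' G = dg C X

/-- Self-correspondences `G ∈ CH^(dim X)(X × X)` which act as the identity on the cohomology of `X`
act surjectively on the zero-cycles of `X`. -/
def SurjectiveOnZeroCycles (H : WeilTheoryData.{u, v, w} C K) : Prop :=
  ∀ (X : 𝒱.Obj) (G : C.A (X.prod X)), C.Deg X.dim G → (∀ a : H.A X, H.act (H.cl G) a = a) →
    ∀ x : C.A X, C.Deg X.dim x → ∃ y : C.A X, C.Deg X.dim y ∧ C.act G y = x

end Pool.Agent.Y148.ZC
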