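import Pool.Agent.Y148.ZC.Ind
import Pool.Agent.Y148.ZC.SurDefs

/-!
# Correspondences which act surjectively on zero-cycles
-/

open CategoryTheory AlgebraicGeometry

universe u v w

namespace Pool.Agent.Y148.ZC

open Pool.Agent.H914 Pool.Agent.H914.VarClass Pool.Agent.H914.VarClass.Obj Pool.Agent.W492.BB
  Pool.Agent.W550.Corr Pool.Agent.TH133 Pool.Agent.Y148.BB

set_option linter.unusedSectionVars false
set_option linter.unusedVariables false

variable {k : Type u} [Field k] {𝒱 : VarClass k}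

section weil

variable {C : TheoryData.{u, v, 0} 𝒱 ℚ} [hC : IsChowProj C] {K : Type w} [Field K]
  {H : WeilTheoryData.{u, v, w} C K} [hH : IsWeilProj H] {X Y Z W P P' : 𝒱.Obj}

include hC

omit hC in
/-- `1 + G` has a left inverse (in the order of composition used here). -/
def LInv (C : TheoryData.{u, v, 0} 𝒱 ℚ) (P : 𝒱.Obj) (G : C.A (P.prod P)) : Prop :=
  ∃ u : C.A (P.prod P), u ∈ C.gr (P.prod P) P.dim ∧ C.comp u (dg C P + G) = dg C P

lemma linv_transfer {s : ℤ} {G : C.A (P.prod P)} (hG : G ∈ C.gr (P.prod P) P.dim)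
    {c : C.A (P.prod P')} (hc : c ∈ C.gr (P.prod P') (P'.dim + s)) {B : C.A (P'.prod P)}
    (hB : B ∈ C.gr (P'.prod P) (P.dim - s))
    (hkey : C.comp c B = C.comp (C.comp G G) G) (h : LInv C P' (C.comp B c)) : LInv C P G := by
  obtain ⟨u, hu, hu1⟩ := h
  have hw : C.comp c (C.comp u B) ∈ C.gr (P.prod P) P.dim :=
    gr_congr (by ring) (comp_gr hc (comp_gr hu hB))
  have h3 : C.comp (dg C P - C.comp c (C.comp u B)) (dg C P + C.comp c B) = dg C P := by
    have e1 : C.comp (C.comp c (C.comp u B)) (dg C P + C.comp c B) = C.comp c B := by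
      have e2 : C.comp (C.comp c (C.comp u B)) (dg C P + C.comp c B) =
          C.comp c (C.comp (C.comp u (dg C P' + C.comp B c)) B) := by
        simp only [comp_add, add_comp, comp_dg, dg_comp, comp_assoc C]
      rw [e2, hu1, dg_comp]
    rw [sub_comp, e1, dg_comp, add_sub_cancel_right]
  refine ⟨C.comp (dg C P - C.comp c (C.comp u B)) (dg C P - G + C.comp G G),
    comp_mem0 C (Submodule.sub_mem _ (dg_mem C P) hw)
      (Submodule.add_mem _ (Submodule.sub_mem _ (dg_mem C P) hG) (comp_mem0 C hG hG)), ?_⟩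
  have h4 : C.comp (dg C P - G + C.comp G G) (dg C P + G) =
      dg C P + C.comp (C.comp G G) G := by
    simp only [comp_add, add_comp, sub_comp, comp_dg, dg_comp]
    abel
  rw [comp_assoc C, h4, ← hkey, h3]

include hH

lemma key_relation {m : ℕ} {D : Fin m → 𝒱.Obj} {α : ∀ a, C.A (P.prod (D a))}
    {β : ∀ a, C.A ((D a).prod P)} {s : ℤ}
    (hα : ∀ a, α a ∈ C.gr (P.prod (D a)) ((D a).dim + s))
    (hβ : ∀ a, β a ∈ C.gr ((D a).prod P) (P.dim - s)) {G : C.A (P.prod P)}
    (hGm : G ∈ C.gr (P.prod P) P.dim) (hGc : H.cl G = 0) (hsum : G = ∑ a, C.comp (α a) (β a))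
    {ι : ∀ a, C.A ((D a).prod P')} {π : ∀ a, C.A (P'.prod (D a))} (hP : IsHull D P' ι π) :
    C.comp (C.comp (C.comp G G) (∑ a, C.comp (α a) (ι a))) (∑ b, C.comp (π b) (β b)) =
      C.comp (C.comp G G) G := by
  have hN : ∀ a c, C.act (tp C (C.comp (β c) (C.comp G (α a)))) 1 = 0 := by
    intro a c
    have h1 : C.comp (β c) (C.comp G (α a)) ∈ C.gr ((D c).prod (D a)) (D a).dim :=
      gr_congr (by ring) (comp_gr (hβ c) (comp_gr hGm (hα a)))
    refine tp_one (H := H) h1 ?_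
    rw [cl_comp, cl_comp, hGc, zero_comp, comp_zero]
  have hGG : ∀ a, C.comp (C.comp G G) (α a) =
      ∑ c, C.comp (α c) (C.comp (β c) (C.comp G (α a))) := by
    intro a
    calc C.comp (C.comp G G) (α a) = C.comp G (C.comp G (α a)) := comp_assoc C _ _ _
      _ = C.comp (∑ c, C.comp (α c) (β c)) (C.comp G (α a)) := by rw [← hsum]
      _ = _ := by
        rw [sum_comp]
        exact Finset.sum_congr rfl fun c _ => comp_assoc C _ _ _
  have hR : C.comp (C.comp G G) G = ∑ a, C.comp (C.comp G G) (C.comp (α a) (β a)) := by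
    calc C.comp (C.comp G G) G = C.comp (C.comp G G) (∑ a, C.comp (α a) (β a)) := by
          rw [← hsum]
      _ = _ := comp_sum C _ _ _
  obtain ⟨B, hB⟩ : ∃ B : C.A (P'.prod P), B = ∑ b, C.comp (π b) (β b) := ⟨_, rfl⟩
  rw [← hB, hR, comp_sum, sum_comp]
  refine Finset.sum_congr rfl fun a _ => ?_
  rw [hB, comp_sum, Finset.sum_eq_single a]
  · rw [← comp_assoc C (C.comp G G), comp_assoc C _ (ι a), ← comp_assoc C (ι a),
      ← comp_assoc C (C.comp (C.comp G G) (α a)), hP.same, comp_assoc C]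
  · intro b _ hb
    rw [← comp_assoc C (C.comp G G), comp_assoc C _ (ι a), ← comp_assoc C (ι a),
      ← comp_assoc C (C.comp (C.comp G G) (α a)), hGG, sum_comp]
    have h0 : ∀ c, C.comp (C.comp (α c) (C.comp (β c) (C.comp G (α a))))
        (C.comp (ι a) (π b)) = 0 := by
      intro c
      rw [comp_assoc C (α c), hP.ne a b (Ne.symm hb) _ _ (hN a c), comp_zero]
    rw [Finset.sum_eq_zero fun c _ => h0 c, zero_comp]
  · intro ha
    exact absurd (Finset.mem_univ a) ha

lemma sur_step (hS : PointwiseFactorization C)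
    (hz : ∀ (X : 𝒱.Obj) (G : C.A (X.prod X)), G ∈ C.gr (X.prod X) X.dim → H.cl G = 0 →
      ∀ x : C.A X, C.Deg X.dim x → ∃ y : C.A X, C.Deg X.dim y ∧ C.act (dg C X + G) y = x)
    {d : ℕ} {G : C.A (P.prod P)} (hGm : G ∈ C.gr (P.prod P) P.dim) (hGc : H.cl G = 0)
    (hT : Thr C (fun e => e = d) P G) : ∃ (P' : 𝒱.Obj) (G' : C.A (P'.prod P')),
      G' ∈ C.gr (P'.prod P') P'.dim ∧ H.cl G' = 0 ∧ Thr C (fun e => e + 1 = d) P' G' ∧
      (LInv C P' G' → LInv C P G) := by
  obtain ⟨m, D, α, β, s, hD, hsum⟩ := hT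
  obtain ⟨P', ι, π, hP⟩ := exists_hull C P m D
  obtain ⟨A, hA⟩ : ∃ A : C.A (P.prod P'), A = ∑ a, C.comp (α a) (ι a) := ⟨_, rfl⟩
  obtain ⟨B, hB⟩ : ∃ B : C.A (P'.prod P), B = ∑ b, C.comp (π b) (β b) := ⟨_, rfl⟩
  have hBm : B ∈ C.gr (P'.prod P) (P.dim - s) := by
    rw [hB]
    exact Submodule.sum_mem _ fun b _ => gr_congr (by ring) (comp_gr (hP.π_mem b) (hD b).2.2)
  have hAm : A ∈ C.gr (P.prod P') (P'.dim + s) := by
    rw [hA]
    exact Submodule.sum_mem _ fun b _ => gr_congr (by ring) (comp_gr (hD b).2.1 (hP.ι_mem b))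
  have hkey : C.comp (C.comp (C.comp G G) A) B = C.comp (C.comp G G) G := by
    rw [hA, hB]
    exact key_relation (H := H) (fun a => (hD a).2.1) (fun a => (hD a).2.2) hGm hGc hsum hP
  have hGG : C.comp G G ∈ C.gr (P.prod P) P.dim := comp_mem0 C hGm hGm
  have hGGc : H.cl (C.comp G G) = 0 := by rw [cl_comp, hGc, comp_zero]
  have hcm : C.comp (C.comp G G) A ∈ C.gr (P.prod P') (P'.dim + s) :=
    gr_congr (by ring) (comp_gr hGG hAm)
  obtain ⟨G', hG'⟩ : ∃ G' : C.A (P'.prod P'), G' = C.comp B (C.comp (C.comp G G) A) := ⟨_, rfl⟩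
  obtain ⟨N, hN⟩ : ∃ N : ∀ b, C.A (P'.prod (D b)),
      N = fun b => C.comp B (C.comp (C.comp G G) (α b)) := ⟨_, rfl⟩
  have hNm : ∀ b, N b ∈ C.gr (P'.prod (D b)) (D b).dim := fun b => by
    rw [hN]
    exact gr_congr (by ring) (comp_gr hBm (comp_gr hGG (hD b).2.1))
  have hG'N : G' = ∑ b, C.comp (N b) (ι b) := by
    rw [hG', hA, comp_sum, comp_sum, hN]
    refine Finset.sum_congr rfl fun b _ => ?_
    rw [comp_assoc C B, comp_assoc C (C.comp G G)]
  have hG'm : G' ∈ C.gr (P'.prod P') P'.dim := by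
    rw [hG'N]
    exact Submodule.sum_mem _ fun b _ => gr_congr (by ring) (comp_gr (hNm b) (hP.ι_mem b))
  have hG'c : H.cl G' = 0 := by
    rw [hG', cl_comp, cl_comp, hGGc, zero_comp, comp_zero]
  -- the factorization on the varieties `D b`
  have h1 : ∀ b, ∃ Φ : C.A ((D b).prod P'), C.Deg P'.dim Φ ∧
      OverDivisors P'.dim (ι b - C.comp Φ (dg C P' + G')) := by
    intro b
    refine hS (D b) P' P' (ι b) (dg C P' + G') (hP.ι_mem b)
      (Submodule.add_mem _ (dg_mem C P') hG'm) fun x hx => ?_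
    have h2 : C.act (ι b) x ∈ C.gr P' P'.dim :=
      gr_congr (by ring) (act_mem' C (e := P'.dim - (D b).dim)
        (gr_congr (by ring) (hP.ι_mem b)) hx)
    exact hz P' G' hG'm hG'c _ h2
  choose Φ hΦ mm E α' β' hE hE' using h1
  obtain ⟨T, hTe⟩ : ∃ T : C.A (P'.prod P'), T = ∑ b, C.comp (N b) (Φ b) := ⟨_, rfl⟩
  obtain ⟨O, hO⟩ : ∃ O : C.A (P'.prod P'),
      O = ∑ b, ∑ c, C.comp (C.comp (N b) (α' b c)) (β' b c) := ⟨_, rfl⟩
  have hTm : T ∈ C.gr (P'.prod P') P'.dim := by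
    rw [hTe]
    exact Submodule.sum_mem _ fun b _ => gr_congr (by ring) (comp_gr (hNm b) (hΦ b))
  have hNα : ∀ b c, C.comp (N b) (α' b c) ∈ C.gr (P'.prod (E b c)) ((E b c).dim + 1) := by
    intro b c
    have h3 := comp_gr (hNm b) (hE b c).2.1
    have h4 := (hE b c).1
    exact gr_congr (by push_cast [← h4]; ring) h3
  have hOm : O ∈ C.gr (P'.prod P') P'.dim := by
    rw [hO]
    exact Submodule.sum_mem _ fun b _ => Submodule.sum_mem _ fun c _ =>
      gr_congr (by ring) (comp_gr (hNα b c) (hE b c).2.2)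
  have hrel : G' = C.comp T (dg C P' + G') + O := by
    have e1 : ∀ b, C.comp (N b) (ι b) = C.comp (C.comp (N b) (Φ b)) (dg C P' + G') +
        ∑ c, C.comp (C.comp (N b) (α' b c)) (β' b c) := by
      intro b
      have e2 : ι b = C.comp (Φ b) (dg C P' + G') + ∑ c, C.comp (α' b c) (β' b c) := by
        rw [← hE' b]; abel
      calc C.comp (N b) (ι b) = C.comp (N b) (C.comp (Φ b) (dg C P' + G') +
            ∑ c, C.comp (α' b c) (β' b c)) := by rw [← e2]
        _ = _ := by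
          rw [comp_add, comp_sum, ← comp_assoc C]
          congr 1
          exact Finset.sum_congr rfl fun c _ => (comp_assoc C _ _ _).symm
    calc G' = ∑ b, C.comp (N b) (ι b) := hG'N
      _ = ∑ b, (C.comp (C.comp (N b) (Φ b)) (dg C P' + G') +
        ∑ c, C.comp (C.comp (N b) (α' b c)) (β' b c)) := Finset.sum_congr rfl fun b _ => e1 b
      _ = _ := by rw [Finset.sum_add_distrib, ← sum_comp, ← hTe, ← hO]
  refine ⟨P', -C.comp O G', ?_, ?_, ?_, ?_⟩
  · exact Submodule.neg_mem _ (comp_mem0 C hOm hG'm)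
  · rw [map_neg, cl_comp, hG'c, comp_zero, neg_zero]
  · refine Thr.of_fintype (J := Σ b, Fin (mm b)) (fun c => E c.1 c.2)
      (fun c => -C.comp (N c.1) (α' c.1 c.2)) (fun c => C.comp (β' c.1 c.2) G') 1
      (fun c => ⟨?_, ?_, ?_⟩) ?_
    · change (E c.1 c.2).dim + 1 = d
      rw [(hE c.1 c.2).1, (hD c.1).1]
    · exact Submodule.neg_mem _ (hNα c.1 c.2)
    · exact gr_congr (by ring) (comp_gr (hE c.1 c.2).2.2 hG'm)
    · have e3 : ∀ c : Σ b, Fin (mm b), C.comp (-C.comp (N c.1) (α' c.1 c.2))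
          (C.comp (β' c.1 c.2) G') =
          -C.comp (C.comp (C.comp (N c.1) (α' c.1 c.2)) (β' c.1 c.2)) G' := by
        intro c
        rw [neg_eq_zero_sub (C.comp (N c.1) (α' c.1 c.2)), sub_comp, zero_comp,
          ← comp_assoc C, zero_sub]
      rw [Finset.sum_congr rfl fun c _ => e3 c, Finset.sum_neg_distrib, Fintype.sum_sigma]
      congr 1
      rw [hO, sum_comp]
      exact Finset.sum_congr rfl fun b _ => sum_comp C _ _ _
  · rintro ⟨w, hw, hw1⟩
    have hLi : LInv C P' G' := by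
      refine ⟨C.comp w (dg C P' - T - O), comp_mem0 C hw (Submodule.sub_mem _
        (Submodule.sub_mem _ (dg_mem C P') hTm) hOm), ?_⟩
      have e4 : C.comp (dg C P' - T - O) (dg C P' + G') = dg C P' + -C.comp O G' := by
        have e5 : C.comp T (dg C P' + G') = G' - O := by
          rw [eq_sub_iff_add_eq]
          exact hrel.symm
        rw [sub_comp, sub_comp, e5, dg_comp, comp_add, comp_dg]
        abel
      rw [comp_assoc C, e4, hw1]
    rw [hG'] at hLi
    exact linv_transfer hGm hcm hBm hkey hLi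

/-- Surjectivity on zero-cycles gives one-sided inverses. -/
theorem linv_of_surjective (hS : PointwiseFactorization C)
    (hz : ∀ (X : 𝒱.Obj) (G : C.A (X.prod X)), G ∈ C.gr (X.prod X) X.dim → H.cl G = 0 →
      ∀ x : C.A X, C.Deg X.dim x → ∃ y : C.A X, C.Deg X.dim y ∧ C.act (dg C X + G) y = x)
    {G : C.A (X.prod X)} (hG : G ∈ C.gr (X.prod X) X.dim) (hGc : H.cl G = 0) : LInv C X G := by
  have key : ∀ (d : ℕ) (P : 𝒱.Obj) (G : C.A (P.prod P)), G ∈ C.gr (P.prod P) P.dim →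
      H.cl G = 0 → Thr C (fun e => e = d) P G → LInv C P G := by
    intro d
    induction d with
    | zero =>
      intro P G hG hGc hT
      obtain ⟨P', G', hG', hc', ⟨m, D, α, β, s, hD, hsum⟩, h3⟩ := sur_step hS hz hG hGc hT
      have hm : m = 0 := by
        by_contra hm
        have := (hD ⟨0, Nat.pos_of_ne_zero hm⟩).1
        simp at this
      subst hm
      rw [Finset.univ_eq_empty, Finset.sum_empty] at hsum
      refine h3 ⟨dg C P', dg_mem C P', ?_⟩
      rw [hsum, add_zero, comp_dg]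
    | succ d ih =>
      intro P G hG hGc hT
      obtain ⟨P', G', hG', hc', hn, h3⟩ := sur_step hS hz hG hGc hT
      refine h3 (ih P' _ hG' hc' ?_)
      obtain ⟨m, D, α, β, s, hD, hsum⟩ := hn
      exact ⟨m, D, α, β, s, fun a => ⟨Nat.succ_injective (hD a).1, (hD a).2⟩, hsum⟩
  refine key X.dim X G hG hGc ⟨1, fun _ => X, fun _ => dg C X, fun _ => G, 0,
    fun a => ⟨rfl, ?_, ?_⟩, ?_⟩
  · rw [add_zero]
    exact dg_mem C X
  · rw [sub_zero]
    exact hG
  · rw [Finset.sum_const, Finset.card_univ, Fintype.card_fin, one_smul, dg_comp]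

/-- Surjectivity on zero-cycles gives inverses. -/
theorem inverse_of_surjective (hS : PointwiseFactorization C)
    (hz : ∀ (X : 𝒱.Obj) (G : C.A (X.prod X)), G ∈ C.gr (X.prod X) X.dim → H.cl G = 0 →
      ∀ x : C.A X, C.Deg X.dim x → ∃ y : C.A X, C.Deg X.dim y ∧ C.act (dg C X + G) y = x)
    {G : C.A (X.prod X)} (hG : G ∈ C.gr (X.prod X) X.dim) (hGc : H.cl G = 0) :
    ∃ u : C.A (X.prod X), u ∈ C.gr (X.prod X) X.dim ∧ C.comp u (dg C X + G) = dg C X ∧
      C.comp (dg C X + G) u = dg C X := by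
  obtain ⟨u, hu, h1⟩ := linv_of_surjective hS hz hG hGc
  have huc : H.cl (u - dg C X) = 0 := by
    have h2 : H.cl (C.comp u (dg C X + G)) = H.cl u := by
      rw [cl_comp, map_add, hGc, add_zero, cl_dg, comp_dg]
    rw [map_sub, ← h2, h1, sub_self]
  obtain ⟨v, hv, h3⟩ := linv_of_surjective hS hz (Submodule.sub_mem _ hu (dg_mem C X)) huc
  rw [add_sub_cancel] at h3
  refine ⟨u, hu, h1, ?_⟩
  have h4 : v = dg C X + G := by
    calc v = C.comp v (C.comp u (dg C X + G)) := by rw [h1, comp_dg]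
      _ = dg C X + G := by rw [← comp_assoc C, h3, dg_comp]
  rw [← h4, h3]

omit hH in
lemma comp_smul_left (q : ℚ) (Γ : C.A (X.prod Y)) (Δ : C.A (Y.prod Z)) :
    C.comp (q • Γ) Δ = q • C.comp Γ Δ := by
  simp only [← compL_apply, map_smul, LinearMap.smul_apply]

omit hH in
lemma comp_smul_right (q : ℚ) (Γ : C.A (X.prod Y)) (Δ : C.A (Y.prod Z)) :
    C.comp Γ (q • Δ) = q • C.comp Γ Δ := map_smul (compL C Γ) q Δ

/-- A correspondence which acts as the identity on the cohomology. -/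
lemma cl_of_id {G : C.A (X.prod X)} (h : ∀ a : H.A X, H.act (H.cl G) a = a) :
    H.cl (G - dg C X) = 0 := by
  apply hom_zero_of_act
  intro a
  rw [map_sub, H.act_sub, h, cl_dg, act_dg, sub_self]

lemma unipotent_of_surjective (hS : PointwiseFactorization C) (h : SurjectiveOnZeroCycles H) :
    UnipotentInvertible H := by
  intro X G hG hid
  have hz : ∀ (X : 𝒱.Obj) (G : C.A (X.prod X)), G ∈ C.gr (X.prod X) X.dim → H.cl G = 0 →
      ∀ x : C.A X, C.Deg X.dim x → ∃ y : C.A X, C.Deg X.dim y ∧ C.act (dg C X + G) y = x := by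
    intro X G hG hGc x hx
    refine h X (dg C X + G) (Submodule.add_mem _ (dg_mem C X) hG) (fun a => ?_) x hx
    rw [map_add, hGc, add_zero, cl_dg, act_dg]
  obtain ⟨u, hu, h1, h2⟩ := inverse_of_surjective hS hz
    (Submodule.sub_mem _ hG (dg_mem C X)) (cl_of_id hid)
  rw [add_sub_cancel] at h1 h2
  exact ⟨u, hu, h2, h1⟩

lemma surjective_of_unipotent (h : UnipotentInvertible H) : SurjectiveOnZeroCycles H := by
  intro X G hG hid x hx
  obtain ⟨G', hG', h1, h2⟩ := h X G hG hid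
  refine ⟨C.act G' x, act_mem0 C hG' hx, ?_⟩
  rw [← C.act_comp, h2, act_dg]

lemma unipotent_of_conservative (h : Conservative H) : UnipotentInvertible H := by
  intro X G hG hid
  obtain ⟨G', hG', _, _, h1, h2⟩ := h X (dg C X) G (dg_mem C X) (dg_comp C _) hG (dg_comp C _)
    (comp_dg C _) fun a _ ha => by rw [← hid a, ha]
  exact ⟨G', hG', h1, h2⟩

omit hH in
lemma pw_comm (G : C.A (X.prod X)) (n : ℕ) : C.comp G (pw C G n) = C.comp (pw C G n) G := by
  rw [← pw_succ, pw_succ']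

end weil

section betti

variable {C : TheoryData.{u, v, 0} 𝒱 ℚ} [hC : IsChowProj C]
  {H : WeilTheoryData.{u, v, 0} C ℚ} [hH : IsWeilProj H] {X Y Z W P P' : 𝒱.Obj}

include hC hH

lemma exists_polynomial [Module.Finite ℚ (H.A (X.prod X))] {G : C.A (X.prod X)}
    (hG : G ∈ C.gr (X.prod X) X.dim) (hinj : ∀ a : H.A X, H.act (H.cl G) a = 0 → a = 0) :
    ∃ F : C.A (X.prod X), F ∈ C.gr (X.prod X) X.dim ∧ C.comp G F = C.comp F G ∧
      H.cl (C.comp F G - dg C X) = 0 := by
  classical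
  have hnl : ¬ LinearIndependent ℚ (fun n : ℕ => H.cl (pw C G n)) := by
    intro h
    have := h.finite_of_isNoetherian
    exact not_finite ℕ
  obtain ⟨s, g, hs, i₀, hi₀, hg₀⟩ := not_linearIndependent_iff.1 hnl
  obtain ⟨t, ht⟩ : ∃ t : Finset ℕ, t = s.filter fun i => g i ≠ 0 := ⟨_, rfl⟩
  have hne : t.Nonempty := ⟨i₀, by rw [ht]; exact Finset.mem_filter.2 ⟨hi₀, hg₀⟩⟩
  obtain ⟨j, hj⟩ : ∃ j, j = t.min' hne := ⟨_, rfl⟩
  have hjt : j ∈ t := hj ▸ t.min'_mem hne
  have hgj : g j ≠ 0 := by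
    rw [ht] at hjt
    exact (Finset.mem_filter.1 hjt).2
  have hle : ∀ i ∈ t, j ≤ i := fun i hi => hj ▸ t.min'_le i hi
  have ht0 : ∑ i ∈ t, g i • H.cl (pw C G i) = 0 := by
    rw [← hs, ht, Finset.sum_filter]
    refine Finset.sum_congr rfl fun i _ => ?_
    by_cases hi : g i = 0
    · simp [hi]
    · simp [hi]
  obtain ⟨F₀, hF₀⟩ : ∃ F₀ : C.A (X.prod X), F₀ = ∑ i ∈ t.erase j, g i • pw C G (i - j - 1) :=
    ⟨_, rfl⟩
  have hF₀m : F₀ ∈ C.gr (X.prod X) X.dim := by
    rw [hF₀]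
    exact Submodule.sum_mem _ fun i _ => Submodule.smul_mem _ _ (pw_mem hG _)
  have hsum : ∑ i ∈ t, g i • pw C G (i - j) = g j • dg C X + C.comp F₀ G := by
    rw [← Finset.add_sum_erase _ _ hjt, Nat.sub_self, pw_zero, hF₀, sum_comp]
    congr 1
    refine Finset.sum_congr rfl fun i hi => ?_
    have h1 := hle i (Finset.mem_of_mem_erase hi)
    have h2 := Finset.ne_of_mem_erase hi
    have h3 : i - j = i - j - 1 + 1 := by omega
    conv_lhs => rw [h3]
    rw [pw_succ', comp_smul_left]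
  have hZ : H.cl (∑ i ∈ t, g i • pw C G (i - j)) = 0 := by
    apply hom_zero_of_act
    intro a
    have h1 : ∀ (n : ℕ) (b : H.A X), H.act (H.cl (pw C G n)) b = 0 → b = 0 := by
      intro n
      induction n with
      | zero =>
        intro b hb
        rwa [pw_zero, cl_dg, act_dg] at hb
      | succ n ih =>
        intro b hb
        rw [pw_succ, cl_comp, H.act_comp] at hb
        exact hinj _ (ih _ hb)
    apply h1 j
    rw [← H.act_comp, ← cl_comp, sum_comp]
    have h2 : ∑ i ∈ t, C.comp (g i • pw C G (i - j)) (pw C G j) = ∑ i ∈ t, g i • pw C G i := by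
      refine Finset.sum_congr rfl fun i hi => ?_
      rw [comp_smul_left, ← pw_add, Nat.add_sub_cancel' (hle i hi)]
    have h3 : H.cl (∑ i ∈ t, g i • pw C G i) = 0 := by
      rw [map_sum, ← ht0]
      refine Finset.sum_congr rfl fun i _ => ?_
      exact map_rat_smul H.cl _ _
    rw [h2, h3]
    exact Pool.Agent.W492.BB.TheoryData.act_zero _ _
  rw [hsum] at hZ
  refine ⟨(-(g j)⁻¹) • F₀, Submodule.smul_mem _ _ hF₀m, ?_, ?_⟩
  · rw [comp_smul_right, comp_smul_left, hF₀, comp_sum, sum_comp]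
    congr 1
    refine Finset.sum_congr rfl fun i _ => ?_
    rw [comp_smul_right, comp_smul_left, pw_comm]
  · have h4 : C.comp ((-(g j)⁻¹) • F₀) G - dg C X =
        (-(g j)⁻¹) • (g j • dg C X + C.comp F₀ G) := by
      rw [comp_smul_left, smul_add, smul_smul, neg_mul, inv_mul_cancel₀ hgj, neg_one_smul]
      abel
    rw [h4, map_rat_smul H.cl, hZ, smul_zero]

lemma conservative_of_unipotent (hfin : ∀ X : 𝒱.Obj, Module.Finite ℚ (H.A X))
    (h : UnipotentInvertible H) : Conservative H := by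
  intro X p G hp hpp hG hpG hGp hinj
  have := hfin (X.prod X)
  have hqm : dg C X - p ∈ C.gr (X.prod X) X.dim := Submodule.sub_mem _ (dg_mem C X) hp
  obtain ⟨G₁, hG₁⟩ : ∃ G₁ : C.A (X.prod X), G₁ = G + (dg C X - p) := ⟨_, rfl⟩
  have hG₁m : G₁ ∈ C.gr (X.prod X) X.dim := by
    rw [hG₁]
    exact Submodule.add_mem _ hG hqm
  have hG₁p : C.comp G₁ p = G := by
    rw [hG₁, add_comp, sub_comp, dg_comp, hpp, sub_self, add_zero, hGp]
  have hpG₁ : C.comp p G₁ = G := by
    rw [hG₁, comp_add, comp_sub, comp_dg, hpp, sub_self, add_zero, hpG]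
  have hinj₁ : ∀ a : H.A X, H.act (H.cl G₁) a = 0 → a = 0 := by
    intro a ha
    have h1 : H.act (H.cl G) a = 0 := by
      rw [← hG₁p, cl_comp, H.act_comp, ha, TheoryData.act_map_zero]
    have h2 : H.act (H.cl p) a = a := by
      have h3 := ha
      rw [hG₁, map_add, map_sub, H.act_add, H.act_sub, h1, cl_dg, act_dg, zero_add,
        sub_eq_zero] at h3
      exact h3.symm
    exact hinj a h2 h1
  obtain ⟨F, hF, hFG, hFc⟩ := exists_polynomial hG₁m hinj₁
  have hid : ∀ a : H.A X, H.act (H.cl (C.comp F G₁)) a = a := by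
    intro a
    have h1 : H.cl (C.comp F G₁) = H.cl (dg C X) := by
      rw [← sub_eq_zero, ← map_sub]
      exact hFc
    rw [h1, cl_dg, act_dg]
  obtain ⟨V, hV, h1, h2⟩ := h X (C.comp F G₁) (comp_mem0 C hF hG₁m) hid
  -- the inverse of `G₁`
  obtain ⟨L, hL⟩ : ∃ L : C.A (X.prod X), L = C.comp V F := ⟨_, rfl⟩
  have hLG : C.comp L G₁ = dg C X := by rw [hL, comp_assoc C, h2]
  have hR : C.comp G₁ (C.comp F V) = dg C X := by rw [← comp_assoc C, hFG, h1]
  have hGL : C.comp G₁ L = dg C X := by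
    have h3 : L = C.comp F V := by
      calc L = C.comp L (C.comp G₁ (C.comp F V)) := by rw [hR, comp_dg]
        _ = C.comp F V := by rw [← comp_assoc C, hLG, dg_comp]
    rw [h3, hR]
  have hcomm : C.comp p G₁ = C.comp G₁ p := by rw [hG₁p, hpG₁]
  have hLp : C.comp L p = C.comp p L := by
    calc C.comp L p = C.comp (C.comp L p) (C.comp G₁ L) := by rw [hGL, comp_dg]
      _ = C.comp (C.comp L (C.comp p G₁)) L := by simp only [comp_assoc C]
      _ = C.comp (C.comp L (C.comp G₁ p)) L := by rw [hcomm]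
      _ = C.comp (C.comp (C.comp L G₁) p) L := by simp only [comp_assoc C]
      _ = C.comp p L := by rw [hLG, dg_comp]
  refine ⟨C.comp L p, comp_mem0 C (by rw [hL]; exact comp_mem0 C hV hF) hp, ?_, ?_, ?_, ?_⟩
  · rw [hLp, ← comp_assoc C, hpp]
  · rw [comp_assoc C, hpp]
  · rw [← hG₁p, comp_assoc C, ← comp_assoc C p, ← hLp, comp_assoc C, hpp, ← comp_assoc C, hGL,
      dg_comp]
  · rw [← hpG₁, comp_assoc C, ← comp_assoc C p p, hpp, ← comp_assoc C, hLp, comp_assoc C, hLG,
      comp_dg]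

/-- **Theorem.** Conservativity on endomorphisms of Chow motives is a statement on zero-cycles. -/
theorem sur_main (hfin : ∀ X : 𝒱.Obj, Module.Finite ℚ (H.A X)) (hS : PointwiseFactorization C) :
    List.TFAE [Conservative H, UnipotentInvertible H, SurjectiveOnZeroCycles H] := by
  tfae_have 1 → 2 := unipotent_of_conservative
  tfae_have 2 → 1 := conservative_of_unipotent hfin
  tfae_have 2 → 3 := surjective_of_unipotent
  tfae_have 3 → 2 := unipotent_of_surjective hS
  tfae_finish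

end betti

end Pool.Agent.Y148.ZC
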